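import Pool.Agent.Helper878_mm.Defs

/-!
# Split pairs of nonterminals: definitions
-/

set_option autoImplicit false

namespace Pool.Agent.Helper878_bs

open Pool.Agent.Helper878_dcs

/-- The vertices `a` and `b` are a split pair: for two vertices `z, z'` of one terminal set, `z a`
and `z' b` are edges and there is no edge between `{z, a}` and `{z', b}`, that is, the edges `z a`
and `z' b` form an induced `2P_2`. -/
def Split (I : Inst) (a b : {v // v ∈ I.1}) : Prop :=
  ∃ Z ∈ I.2.2, ∃ z z' : {v // v ∈ I.1}, z.1 ∈ Z ∧ z'.1 ∈ Z ∧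
    (graph I.1 I.2.1).Adj z a ∧ (graph I.1 I.2.1).Adj z' b ∧
    ¬ (graph I.1 I.2.1).Adj z z' ∧ ¬ (graph I.1 I.2.1).Adj z b ∧
    ¬ (graph I.1 I.2.1).Adj a z' ∧ ¬ (graph I.1 I.2.1).Adj a b

/-- There are two sets of `t` nonterminals each such that every vertex of the first set and every
vertex of the second set are a split pair. -/
def SplitBiclique (t : ℕ) (I : Inst) : Prop :=
  ∃ X Y : Finset {v // v ∈ I.1}, X.card = t ∧ Y.card = t ∧
    (∀ x ∈ X, ∀ Z ∈ I.2.2, x.1 ∉ Z) ∧ (∀ y ∈ Y, ∀ Z ∈ I.2.2, y.1 ∉ Z) ∧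
    ∀ x ∈ X, ∀ y ∈ Y, Split I x y

/-- The graph `2K_t`: two disjoint complete graphs with `t` vertices each and no edge between
them. -/
def twoK (t : ℕ) : SimpleGraph (Fin t ⊕ Fin t) :=
  (⊤ : SimpleGraph (Fin t)) ⊕g (⊤ : SimpleGraph (Fin t))

end Pool.Agent.Helper878_bs
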