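import Pool.Agent.Helper878_bs.Opt
import Pool.Agent.Helper878_bs.Defs

/-!
# Searching for bicliques
-/

set_option autoImplicit false
set_option linter.unusedSectionVars false

namespace Pool.Agent.Helper878_bs

open Finset Pool.Agent.NPC Pool.Agent.H671R2.SF Pool.Agent.Helper878_dcs Pool.Agent.Helper878_mm
open scoped Classical

/-- the search for a biclique of a relation -/
def bicG (f : ℕ → ℕ → Bool) (t : ℕ) : ℕ → List ℕ → List ℕ → Bool
  | 0, _, d => decide (t ≤ d.length)
  | s + 1, c, d => c.any fun v => bicG f t s (rm v c) (d.filter fun y => f v y)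

theorem bicB_eq (t : ℕ) (E : List (ℕ × ℕ)) (Zs : List (List ℕ)) : ∀ (s : ℕ) (c d : List ℕ),
    bicB t s ((E, Zs), (c, d)) = bicG (spB E Zs) t s c d
  | 0, _, _ => rfl
  | s + 1, c, d => by
    unfold bicB bicG
    simp only [bicB_eq t E Zs s]

/-- the search for two anticomplete sets -/
def bicN (t : ℕ) : ℕ → (List (ℕ × ℕ) × (List ℕ × List ℕ)) → Bool
  | 0, x => decide (t ≤ x.2.2.length)
  | s + 1, x => x.2.1.any fun v =>
      bicN t s (x.1, (rm v x.2.1, x.2.2.filter fun y => !decide (v = y) && !adj x.1 v y))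

theorem poly_bicN (t : ℕ) : ∀ s, Poly (bicN t s)
  | 0 => by
    have e : bicN t 0 = fun x => decide (t ≤ x.2.2.length) := by
      funext x; rfl
    rw [e]
    fun_prop
  | s + 1 => by
    have ih := poly_bicN t s
    have e : bicN t (s + 1) = fun x => x.2.1.any fun v =>
      bicN t s (x.1, (rm v x.2.1, x.2.2.filter fun y => !decide (v = y) && !adj x.1 v y)) := by
      funext x; rfl
    rw [e]
    generalize bicN t s = f at ih
    fun_prop

theorem bicN_eq (t : ℕ) (E : List (ℕ × ℕ)) : ∀ (s : ℕ) (c d : List ℕ),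
    bicN t s (E, (c, d)) = bicG (fun v y => !decide (v = y) && !adj E v y) t s c d
  | 0, _, _ => rfl
  | s + 1, c, d => by
    unfold bicN bicG
    simp only [bicN_eq t E s]

theorem bicG_iff (f : ℕ → ℕ → Bool) (t : ℕ) : ∀ (s : ℕ) (c d : List ℕ), d.Nodup →
    (bicG f t s c d = true ↔ ∃ X : Finset ℕ, (∀ x ∈ X, x ∈ c) ∧ X.card = s ∧
      t ≤ (d.toFinset.filter fun y => ∀ x ∈ X, f x y = true).card)
  | 0, c, d, hd => by
    unfold bicG
    rw [decide_eq_true_eq]
    constructor
    · intro h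
      refine ⟨∅, by simp, card_empty, ?_⟩
      rw [filter_true_of_mem (by simp), List.toFinset_card_of_nodup hd]
      exact h
    · rintro ⟨X, _, _, h⟩
      exact h.trans ((card_le_card (filter_subset _ _)).trans (List.toFinset_card_le _))
  | s + 1, c, d, hd => by
    have ih := fun v => bicG_iff f t s (rm v c) (d.filter fun y => f v y) (hd.filter _)
    have key : ∀ (v : ℕ) (X : Finset ℕ), ((d.filter fun y => f v y).toFinset.filter
        fun y => ∀ x ∈ X, f x y = true) =
        d.toFinset.filter fun y => ∀ x ∈ insert v X, f x y = true := by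
      intro v X
      ext y
      rw [mem_filter, mem_filter, List.mem_toFinset, List.mem_filter, List.mem_toFinset,
        forall_mem_insert, and_assoc]
    unfold bicG
    rw [List.any_eq_true]
    constructor
    · rintro ⟨v, hv, h⟩
      rw [ih v] at h
      obtain ⟨X, h1, h2, h3⟩ := h
      have hvX : v ∉ X := fun hx => (mem_rm.1 (h1 v hx)).2 rfl
      refine ⟨insert v X, ?_, ?_, ?_⟩
      · intro x hx
        rcases mem_insert.1 hx with rfl | hx
        · exact hv
        · exact (mem_rm.1 (h1 x hx)).1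
      · rw [card_insert_of_notMem hvX, h2]
      · rw [key] at h3
        exact h3
    · rintro ⟨X, h1, h2, h3⟩
      obtain ⟨v, hv⟩ : X.Nonempty := by
        rw [← card_pos, h2]; exact Nat.succ_pos s
      refine ⟨v, h1 v hv, (ih v).2 ⟨X.erase v, ?_, ?_, ?_⟩⟩
      · intro x hx
        rw [mem_erase] at hx
        exact mem_rm.2 ⟨h1 x hx.2, hx.1⟩
      · rw [card_erase_of_mem hv, h2]; rfl
      · rw [key, insert_erase hv]
        exact h3

/-- The search finds a biclique exactly if there is one. -/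
theorem bicG_kf (f : ℕ → ℕ → Bool) (t : ℕ) {W : List ℕ} (hW : W.Nodup) :
    bicG f t t W W = true ↔ ¬ KF W.toFinset (fun x y => f x y = true) t := by
  rw [bicG_iff f t t W W hW]
  unfold KF
  constructor
  · rintro ⟨X, h1, h2, h3⟩ hk
    obtain ⟨Y, hY, hYc⟩ := exists_subset_card_eq h3
    obtain ⟨x, hx, y, hy, hxy⟩ := hk X Y (fun x hx => List.mem_toFinset.2 (h1 x hx))
      (fun y hy => (mem_filter.1 (hY hy)).1) h2 hYc
    exact hxy ((mem_filter.1 (hY hy)).2 x hx)
  · intro hk
    push Not at hk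
    obtain ⟨X, Y, hX, hY, hXc, hYc, h⟩ := hk
    refine ⟨X, fun x hx => List.mem_toFinset.1 (hX hx), hXc, ?_⟩
    rw [← hYc]
    refine card_le_card fun y hy => mem_filter.2 ⟨hY hy, fun x hx => h x hx y hy⟩

section
variable {I : Inst}

theorem split_iff (hw : WellFormed I) (a b : {v // v ∈ I.1}) :
    Split I a b ↔ Spl I.2.1 I.2.2 a.1 b.1 := by
  rw [spl_iff]
  unfold Split
  constructor
  · rintro ⟨Z, hZ, z, z', hz, hz', h1, h2, h3, h4, h5, h6⟩
    rw [graph_adj] at h1 h2 h3 h4 h5 h6
    exact ⟨Z, hZ, z.1, hz, z'.1, hz', h1, h2, h3, h4, h5, h6⟩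
  · rintro ⟨Z, hZ, z, hz, z', hz', h1, h2, h3, h4, h5, h6⟩
    refine ⟨Z, hZ, ⟨z, (hw.2.2 Z hZ).2 z hz⟩, ⟨z', (hw.2.2 Z hZ).2 z' hz'⟩, hz, hz', ?_⟩
    rw [graph_adj, graph_adj, graph_adj, graph_adj, graph_adj, graph_adj]
    exact ⟨h1, h2, h3, h4, h5, h6⟩

/-- lifting a finite set of vertices -/
theorem exists_lift {V : List ℕ} {X : Finset ℕ} (hX : ∀ x ∈ X, x ∈ V) :
    ∃ X' : Finset {v // v ∈ V}, X'.card = X.card ∧ ∀ x, x ∈ X' ↔ x.1 ∈ X := by
  refine ⟨X.subtype (fun v => v ∈ V), ?_, fun x => mem_subtype⟩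
  rw [card_subtype, filter_true_of_mem hX]

theorem biclique_iff (hw : WellFormed I) (t : ℕ) :
    SplitBiclique t I ↔ ¬ KF (freeV I.1 I.2.2).toFinset (Spl I.2.1 I.2.2) t := by
  unfold KF
  constructor
  · rintro ⟨X, Y, hXc, hYc, hX, hY, h⟩ hk
    obtain ⟨x, hx, y, hy, hxy⟩ := hk (X.map ⟨Subtype.val, Subtype.val_injective⟩)
      (Y.map ⟨Subtype.val, Subtype.val_injective⟩) (by
        intro x hx
        obtain ⟨x', hx', rfl⟩ := mem_map.1 hx
        exact List.mem_toFinset.2 (mem_freeV.2 ⟨x'.2, hX x' hx'⟩)) (by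
        intro y hy
        obtain ⟨y', hy', rfl⟩ := mem_map.1 hy
        exact List.mem_toFinset.2 (mem_freeV.2 ⟨y'.2, hY y' hy'⟩))
      (by rw [card_map, hXc]) (by rw [card_map, hYc])
    obtain ⟨x', hx', rfl⟩ := mem_map.1 hx
    obtain ⟨y', hy', rfl⟩ := mem_map.1 hy
    exact hxy ((split_iff hw x' y').1 (h x' hx' y' hy'))
  · intro hk
    push Not at hk
    obtain ⟨X, Y, hX, hY, hXc, hYc, h⟩ := hk
    have fX : ∀ x ∈ X, x ∈ I.1 ∧ ∀ Z ∈ I.2.2, x ∉ Z := fun x hx =>
      mem_freeV.1 (List.mem_toFinset.1 (hX hx))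
    have fY : ∀ y ∈ Y, y ∈ I.1 ∧ ∀ Z ∈ I.2.2, y ∉ Z := fun y hy =>
      mem_freeV.1 (List.mem_toFinset.1 (hY hy))
    obtain ⟨X', h1, h2⟩ := exists_lift fun x hx => (fX x hx).1
    obtain ⟨Y', h3, h4⟩ := exists_lift fun y hy => (fY y hy).1
    refine ⟨X', Y', h1.trans hXc, h3.trans hYc, fun x hx => (fX _ ((h2 x).1 hx)).2,
      fun y hy => (fY _ ((h4 y).1 hy)).2, fun x hx y hy => ?_⟩
    exact (split_iff hw x y).2 (h _ ((h2 x).1 hx) _ ((h4 y).1 hy))

/-- `2K_t`-freeness of a `3P_1`-free graph -/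
theorem twoK_iff {V : List ℕ} {E : List (ℕ × ℕ)} (hT : TP (GG E) V.toFinset) (t : ℕ) :
    Free (twoK t) (graph V E) ↔
      KF V.toFinset (fun x y => (!decide (x = y) && !adj E x y) = true) t := by
  unfold KF
  constructor
  · intro hF X Y hX hY hXc hYc
    by_contra hn
    push Not at hn
    have hn' : ∀ x ∈ X, ∀ y ∈ Y, x ≠ y ∧ ¬ (GG E).Adj x y := by
      intro x hx y hy
      have := hn x hx y hy
      rw [Bool.and_eq_true, nadj_iff] at this
      refine ⟨fun he => ?_, this.2⟩
      simpa [he] using this.1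
    have hXV : ∀ x ∈ X, x ∈ V := fun x hx => List.mem_toFinset.1 (hX hx)
    have hYV : ∀ y ∈ Y, y ∈ V := fun y hy => List.mem_toFinset.1 (hY hy)
    have eX := (X.equivFinOfCardEq hXc).symm
    have eY := (Y.equivFinOfCardEq hYc).symm
    refine hF.false ⟨⟨Sum.elim (fun i => ⟨(eX i).1, hXV _ (eX i).2⟩)
      (fun i => ⟨(eY i).1, hYV _ (eY i).2⟩), ?_⟩, ?_⟩
    · rintro (i | i) (j | j) hij
      · have h1 : (eX i).1 = (eX j).1 := (Subtype.mk.inj hij :)
        rw [eX.injective (Subtype.ext h1)]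
      · have h1 : (eX i).1 = (eY j).1 := congrArg Subtype.val hij
        exact absurd h1 (hn' _ (eX i).2 _ (eY j).2).1
      · have h1 : (eY i).1 = (eX j).1 := congrArg Subtype.val hij
        exact absurd h1.symm (hn' _ (eX j).2 _ (eY i).2).1
      · have h1 : (eY i).1 = (eY j).1 := (Subtype.mk.inj hij :)
        rw [eY.injective (Subtype.ext h1)]
    · rintro (i | i) (j | j)
      · change (graph V E).Adj ⟨(eX i).1, _⟩ ⟨(eX j).1, _⟩ ↔ (twoK t).Adj (Sum.inl i) (Sum.inl j)
        rw [graph_adj]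
        constructor
        · intro h
          have : i ≠ j := fun he => h.ne (by rw [he])
          simpa [twoK] using this
        · intro h
          have hij : i ≠ j := by simpa [twoK] using h
          have hne : (eX i).1 ≠ (eX j).1 := fun he => hij (eX.injective (Subtype.ext he))
          have h1 := hn' _ (eX i).2 _ (eY i).2
          have h2 := hn' _ (eX j).2 _ (eY i).2
          rcases hT _ (hX (eX i).2) _ (hX (eX j).2) _ (hY (eY i).2) hne h1.1 h2.1 with h3 | h3 | h3
          · exact h3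
          · exact absurd h3 h1.2
          · exact absurd h3 h2.2
      · change (graph V E).Adj ⟨(eX i).1, _⟩ ⟨(eY j).1, _⟩ ↔ (twoK t).Adj (Sum.inl i) (Sum.inr j)
        rw [graph_adj]
        constructor
        · intro h
          exact absurd h (hn' _ (eX i).2 _ (eY j).2).2
        · intro h
          simp [twoK] at h
      · change (graph V E).Adj ⟨(eY i).1, _⟩ ⟨(eX j).1, _⟩ ↔ (twoK t).Adj (Sum.inr i) (Sum.inl j)
        rw [graph_adj]
        constructor
        · intro h
          exact absurd h.symm (hn' _ (eX j).2 _ (eY i).2).2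
        · intro h
          simp [twoK] at h
      · change (graph V E).Adj ⟨(eY i).1, _⟩ ⟨(eY j).1, _⟩ ↔ (twoK t).Adj (Sum.inr i) (Sum.inr j)
        rw [graph_adj]
        constructor
        · intro h
          have : i ≠ j := fun he => h.ne (by rw [he])
          simpa [twoK] using this
        · intro h
          have hij : i ≠ j := by simpa [twoK] using h
          have hne : (eY i).1 ≠ (eY j).1 := fun he => hij (eY.injective (Subtype.ext he))
          have h1 := hn' _ (eX i).2 _ (eY i).2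
          have h2 := hn' _ (eX i).2 _ (eY j).2
          rcases hT _ (hX (eX i).2) _ (hY (eY i).2) _ (hY (eY j).2) h1.1 h2.1 hne with h3 | h3 | h3
          · exact absurd h3 h1.2
          · exact absurd h3 h2.2
          · exact h3
  · intro hk
    refine ⟨fun f => ?_⟩
    have hinj : ∀ a b, (f a).1 = (f b).1 → a = b := fun a b he => f.injective (Subtype.ext he)
    have hcX : (univ.image fun i : Fin t => (f (Sum.inl i)).1).card = t := by
      rw [card_image_of_injective, card_univ, Fintype.card_fin]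
      intro i j hij
      exact Sum.inl_injective (hinj _ _ hij)
    have hcY : (univ.image fun i : Fin t => (f (Sum.inr i)).1).card = t := by
      rw [card_image_of_injective, card_univ, Fintype.card_fin]
      intro i j hij
      exact Sum.inr_injective (hinj _ _ hij)
    obtain ⟨x, hx, y, hy, hxy⟩ := hk _ _ (by
      intro x hx
      obtain ⟨i, _, rfl⟩ := mem_image.1 hx
      exact List.mem_toFinset.2 (f (Sum.inl i)).2) (by
      intro x hx
      obtain ⟨i, _, rfl⟩ := mem_image.1 hx
      exact List.mem_toFinset.2 (f (Sum.inr i)).2) hcX hcY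
    obtain ⟨i, _, rfl⟩ := mem_image.1 hx
    obtain ⟨j, _, rfl⟩ := mem_image.1 hy
    refine hxy ?_
    change (!decide ((f (Sum.inl i)).1 = (f (Sum.inr j)).1) &&
      !adj E (f (Sum.inl i)).1 (f (Sum.inr j)).1) = true
    rw [Bool.and_eq_true, nadj_iff]
    refine ⟨?_, ?_⟩
    · rw [Bool.not_eq_true', decide_eq_false_iff_not]
      intro he
      exact absurd (hinj _ _ he) (by simp)
    · intro h
      rw [← graph_adj, f.map_adj_iff] at h
      simp [twoK] at h

end

end Pool.Agent.Helper878_bs
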