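import Pool.Agent.Helper878_bs.Corr

/-!
# Completeness of the search
-/

set_option autoImplicit false
set_option linter.unusedSectionVars false

namespace Pool.Agent.Helper878_bs

open Finset Pool.Agent.H671R2.SF Pool.Agent.Helper878_dcs Pool.Agent.Helper878_mm
open scoped Classical

variable {E : List (ℕ × ℕ)} {Zs : List (List ℕ)} {Ul W : List ℕ} {J : List (List ℕ)} {r l m : ℕ}

theorem rec_leaf (h : leafB r l E Zs Ul W J = true) :
    recB r l m ((E, Zs), (Ul, (W, J))) = true := by
  cases m with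
  | zero => exact h
  | succ m =>
    unfold recB
    dsimp only
    rw [h, Bool.true_or]

theorem rec_del {a : ℕ} (ha : a ∈ W) (h : recB r l m ((E, Zs), (Ul, (rm a W, J))) = true) :
    recB r l (m + 1) ((E, Zs), (Ul, (W, J))) = true := by
  unfold recB
  dsimp only
  rw [Bool.or_eq_true, Bool.or_eq_true, Bool.or_eq_true]
  exact Or.inr (Or.inl (List.any_eq_true.2 ⟨a, ha, h⟩))

theorem rec_zero {Z : List ℕ} {a : ℕ} (hZ : Z ∈ J) (ha : a ∈ W) (hz : zB E Z a = true)
    (h : recB r l m ((E, Zs), (Ul, (rm a W, rmZ Z J))) = true) :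
    recB r l (m + 1) ((E, Zs), (Ul, (W, J))) = true := by
  unfold recB
  dsimp only
  rw [Bool.or_eq_true, Bool.or_eq_true, Bool.or_eq_true]
  refine Or.inr (Or.inr (Or.inl (List.any_eq_true.2 ⟨Z, hZ, List.any_eq_true.2 ⟨a, ha, ?_⟩⟩)))
  rw [Bool.and_eq_true]
  exact ⟨hz, h⟩

theorem rec_pair {Z : List ℕ} {a b : ℕ} (hZ : Z ∈ J) (ha : a ∈ W) (hb : b ∈ W)
    (hp : prB E Z a b = true)
    (h : recB r l m ((E, Zs), (a :: b :: Ul, (rm b (rm a W), rmZ Z J))) = true) :
    recB r l (m + 1) ((E, Zs), (Ul, (W, J))) = true := by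
  unfold recB
  dsimp only
  rw [Bool.or_eq_true, Bool.or_eq_true, Bool.or_eq_true]
  refine Or.inr (Or.inr (Or.inr (List.any_eq_true.2 ⟨Z, hZ, List.any_eq_true.2 ⟨a, ha,
    List.any_eq_true.2 ⟨b, hb, ?_⟩⟩⟩)))
  rw [Bool.and_eq_true]
  exact ⟨hp, h⟩

/-- The search finds the right choices. -/
theorem rec_guess {J0 : List (List ℕ)} {W0 : List ℕ} (g : {Z // Z ∈ J0} → Finset ℕ)
    (hg : ∀ i, Gd E W0 J0 i (g i)) (hd : ∀ i j, i ≠ j → Disjoint (g i) (g j)) :
    ∀ (m : ℕ) (D : Finset {Z // Z ∈ J0}) (X : Finset ℕ) (Ul W : List ℕ) (J : List (List ℕ)),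
      D.card + X.card ≤ m → W.Nodup → J.Nodup → (∀ i ∈ D, i.1 ∈ J) →
      (∀ i ∈ D, ∀ x ∈ g i, x ∈ W) → (∀ x ∈ X, x ∈ W) → (∀ i ∈ D, ∀ x ∈ g i, x ∉ X) →
      (∀ (L W' : List ℕ) (J' : List (List ℕ)), L.Nodup → (∀ u ∈ L, ∃ i ∈ D, u ∈ g i) →
        2 * (D.filter fun i => (g i).card = 2).card ≤ L.length → W'.Nodup → J'.Nodup →
        (∀ w, w ∈ W' ↔ w ∈ W ∧ w ∉ X ∧ ∀ i ∈ D, w ∉ g i) →
        (∀ Z, Z ∈ J' ↔ Z ∈ J ∧ ∀ i ∈ D, i.1 ≠ Z) → leafB r l E Zs (L ++ Ul) W' J' = true) →
      recB r l m ((E, Zs), (Ul, (W, J))) = true := by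
  intro m
  induction m with
  | zero =>
    intro D X Ul W J hc hW hJ hDJ hDW hXW hX hl
    have hD : D = ∅ := card_eq_zero.1 (by omega)
    have hX0 : X = ∅ := card_eq_zero.1 (by omega)
    subst hD hX0
    exact rec_leaf (by
      simpa using hl [] W J List.nodup_nil (by simp) (by simp) hW hJ (by simp) (by simp))
  | succ m ih =>
    intro D X Ul W J hc hW hJ hDJ hDW hXW hX hl
    by_cases hXe : X.Nonempty
    · obtain ⟨a, ha⟩ := hXe
      refine rec_del (hXW a ha) (ih D (X.erase a) Ul (rm a W) J ?_ (nodup_rm hW) hJ hDJ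
        ?_ ?_ ?_ ?_)
      · have h1 := card_erase_of_mem ha
        have h2 := card_pos.2 ⟨a, ha⟩
        omega
      · intro i hi x hx
        exact mem_rm.2 ⟨hDW i hi x hx, fun he => hX i hi x hx (he ▸ ha)⟩
      · intro x hx
        rw [mem_erase] at hx
        exact mem_rm.2 ⟨hXW x hx.2, hx.1⟩
      · intro i hi x hx hx'
        exact hX i hi x hx (mem_of_mem_erase hx')
      · intro L W' J' h1 h2 h3 h4 h5 h6 h7
        refine hl L W' J' h1 h2 h3 h4 h5 (fun w => ?_) h7
        rw [h6, mem_rm, mem_erase]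
        constructor
        · rintro ⟨⟨h8, h9⟩, h10, h11⟩
          exact ⟨h8, fun h => h10 ⟨h9, h⟩, h11⟩
        · rintro ⟨h8, h9, h10⟩
          exact ⟨⟨h8, fun h => h9 (h ▸ ha)⟩, fun h => h9 h.2, h10⟩
    · have hX0 : X = ∅ := not_nonempty_iff_eq_empty.1 hXe
      subst hX0
      by_cases hDe : D.Nonempty
      · obtain ⟨i, hi⟩ := hDe
        have hcard : (D.erase i).card + (∅ : Finset ℕ).card ≤ m := by
          have h1 := card_erase_of_mem hi
          have h2 := card_pos.2 ⟨i, hi⟩
          rw [card_empty] at hc ⊢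
          omega
        have hDJ' : ∀ j ∈ D.erase i, j.1 ∈ rmZ i.1 J := by
          intro j hj
          rw [mem_erase] at hj
          exact mem_rmZ.2 ⟨hDJ j hj.2, fun he => hj.1 (Subtype.ext he)⟩
        have hgi : ∀ j ∈ D.erase i, ∀ x ∈ g j, x ∈ W ∧ x ∉ g i := by
          intro j hj x hx
          rw [mem_erase] at hj
          exact ⟨hDW j hj.2 x hx, fun hx' => disjoint_left.1 (hd j i hj.1) hx hx'⟩
        have hall : ∀ p : {Z // Z ∈ J0} → Prop, (∀ j ∈ D, p j) ↔ p i ∧ ∀ j ∈ D.erase i, p j := by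
          intro p
          constructor
          · intro h
            exact ⟨h i hi, fun j hj => h j (mem_of_mem_erase hj)⟩
          · rintro ⟨h1, h2⟩ j hj
            by_cases he : j = i
            · rw [he]; exact h1
            · exact h2 j (mem_erase.2 ⟨he, hj⟩)
        have hJJ : ∀ (J' : List (List ℕ)),
            (∀ Z, Z ∈ J' ↔ Z ∈ rmZ i.1 J ∧ ∀ j ∈ D.erase i, j.1 ≠ Z) →
            ∀ Z, Z ∈ J' ↔ Z ∈ J ∧ ∀ j ∈ D, j.1 ≠ Z := by
          intro J' h Z
          rw [h, mem_rmZ, hall]
          constructor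
          · rintro ⟨⟨h1, h2⟩, h3⟩
            exact ⟨h1, fun he => h2 he.symm, h3⟩
          · rintro ⟨h1, h2, h3⟩
            exact ⟨⟨h1, fun he => h2 he.symm⟩, h3⟩
        rcases hg i with ⟨c, hcW, h1, h2⟩ | ⟨a, haW, b, hbW, h1, h2, h3, h4⟩
        · have hcg : c ∈ g i := by rw [h2]; simp
          refine rec_zero (hDJ i hi) (hDW i hi c hcg) (sg3_zero.1 h1)
            (ih (D.erase i) ∅ Ul (rm c W) (rmZ i.1 J) hcard (nodup_rm hW) (nodup_rmZ hJ)
              hDJ' ?_ (by simp) (by simp) ?_)
          · intro j hj x hx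
            obtain ⟨h3, h4⟩ := hgi j hj x hx
            refine mem_rm.2 ⟨h3, fun he => h4 ?_⟩
            rw [he]; exact hcg
          · intro L W' J' k1 k2 k3 k4 k5 k6 k7
            refine hl L W' J' k1 ?_ ?_ k4 k5 (fun w => ?_) (hJJ J' k7)
            · intro u hu
              obtain ⟨j, hj, hu⟩ := k2 u hu
              exact ⟨j, mem_of_mem_erase hj, hu⟩
            · refine le_trans (Nat.mul_le_mul_left 2 (card_le_card ?_)) k3
              intro j hj
              rw [mem_filter] at hj ⊢
              refine ⟨mem_erase.2 ⟨fun he => ?_, hj.1⟩, hj.2⟩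
              have := hj.2
              rw [he, h2, card_singleton] at this
              exact absurd this (by decide)
            · rw [k6, mem_rm, hall, h2, mem_singleton]
              tauto
        · have hag : a ∈ g i := by rw [h4]; simp
          have hbg : b ∈ g i := by rw [h4]; simp
          have hab : a ≠ b := by
            intro he
            rw [he] at h1
            rw [h1] at h2
            exact absurd h2 (by decide)
          refine rec_pair (hDJ i hi) (hDW i hi a hag) (hDW i hi b hbg) (pr_iff.2 ⟨h1, h2, h3⟩)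
            (ih (D.erase i) ∅ (a :: b :: Ul) (rm b (rm a W)) (rmZ i.1 J) hcard
              (nodup_rm (nodup_rm hW)) (nodup_rmZ hJ) hDJ' ?_ (by simp) (by simp) ?_)
          · intro j hj x hx
            obtain ⟨h5, h6⟩ := hgi j hj x hx
            refine mem_rm.2 ⟨mem_rm.2 ⟨h5, fun he => h6 ?_⟩, fun he => h6 ?_⟩
            · rw [he]; exact hag
            · rw [he]; exact hbg
          · intro L W' J' k1 k2 k3 k4 k5 k6 k7
            have hLi : ∀ u ∈ L, u ∉ g i := by
              intro u hu
              obtain ⟨j, hj, hu⟩ := k2 u hu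
              exact (hgi j hj u hu).2
            have := hl (L ++ [a, b]) W' J' ?_ ?_ ?_ k4 k5 (fun w => ?_) (hJJ J' k7)
            · rw [List.append_assoc] at this
              exact this
            · rw [List.nodup_append]
              refine ⟨k1, by simp [hab], ?_⟩
              intro u hu v hv he
              rw [he] at hu
              refine hLi v hu ?_
              rw [h4, mem_insert, mem_singleton]
              simpa using hv
            · intro u hu
              rw [List.mem_append] at hu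
              rcases hu with hu | hu
              · obtain ⟨j, hj, hu⟩ := k2 u hu
                exact ⟨j, mem_of_mem_erase hj, hu⟩
              · refine ⟨i, hi, ?_⟩
                rw [h4, mem_insert, mem_singleton]
                simpa using hu
            · rw [List.length_append]
              have h5 : (D.filter fun j => (g j).card = 2).card ≤
                  ((D.erase i).filter fun j => (g j).card = 2).card + 1 := by
                rw [filter_erase]
                have := pred_card_le_card_erase (s := D.filter fun j => (g j).card = 2) (a := i)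
                omega
              simp only [List.length_cons, List.length_nil]
              omega
            · rw [k6, mem_rm, mem_rm, hall, h4, mem_insert, mem_singleton]
              tauto
      · have hD0 : D = ∅ := not_nonempty_iff_eq_empty.1 hDe
        subst hD0
        exact rec_leaf (by
          simpa using hl [] W J List.nodup_nil (by simp) (by simp) hW hJ (by simp) (by simp))

/-- the constants -/
def qC (t : ℕ) : ℕ := 2 * mC t + 22 * t + c1 t

/-- the constants -/
def rC (t : ℕ) : ℕ := qC t + 64 * t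

/-- the constants -/
def lC (t : ℕ) : ℕ := 2 * (2 * rC t + 4 * t + 2 * c1 t)

/-- the constants -/
def dC (t : ℕ) : ℕ := 8 * qC t + 64 * t

/-- few indices meet a small set -/
theorem card_meet {ι : Type} [DecidableEq ι] [Fintype ι] {g : ι → Finset ℕ}
    (hd : ∀ i j, i ≠ j → Disjoint (g i) (g j)) (H : Finset ℕ) :
    (univ.filter fun i => ∃ x ∈ g i, x ∈ H).card ≤ H.card := by
  have hex : ∀ i, ∃ x, i ∈ (univ.filter fun i => ∃ x ∈ g i, x ∈ H) → x ∈ g i ∧ x ∈ H := by
    intro i
    by_cases hi : i ∈ (univ.filter fun i => ∃ x ∈ g i, x ∈ H)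
    · obtain ⟨x, h1, h2⟩ := (mem_filter.1 hi).2
      exact ⟨x, fun _ => ⟨h1, h2⟩⟩
    · exact ⟨0, fun h => absurd h hi⟩
  choose f hf using hex
  refine card_le_card_of_injOn f ?_ ?_
  · intro i hi
    exact mem_coe.2 (hf i (mem_coe.1 hi)).2
  · intro j hj k hk he
    by_contra hne
    exact disjoint_left.1 (hd j k hne) (hf j (mem_coe.1 hj)).1 (he ▸ (hf k (mem_coe.1 hk)).1)

/-- completeness of the search -/
theorem rec_complete {J0 : List (List ℕ)} {W0 : List ℕ} (h0 : LC W0 J0) {t : ℕ}
    (ht : KF W0.toFinset (Spl E Zs) t) (g : {Z // Z ∈ J0} → Finset ℕ)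
    (hg : ∀ i, Gd E W0 J0 i (g i)) (hd : ∀ i j, i ≠ j → Disjoint (g i) (g j)) :
    recB (rC t) (lC t) (dC t) ((E, Zs), ([], (W0, J0))) = true := by
  have tp := ht.pos
  have hgW : ∀ i, ∀ x ∈ g i, x ∈ W0 := fun i x hx =>
    List.mem_toFinset.1 (opt_sub (hg i).isOpt hx)
  have hgc : ∀ i, (g i).card ≤ 2 := by
    intro i
    rcases hg i with ⟨c, _, _, h2⟩ | ⟨a, _, b, _, _, _, _, h2⟩
    · rw [h2, card_singleton]; norm_num
    · rw [h2]; exact card_le_two
  set Y : Finset {Z // Z ∈ J0} := univ.filter fun i => (g i).card = 2 with hY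
  by_cases hYc : Y.card < 8 * qC t
  · refine rec_guess g hg hd (dC t) Y ∅ [] W0 J0 ?_ h0.hWn h0.hJn (fun i _ => i.2)
      (fun i _ x hx => hgW i x hx) (by simp) (by simp) ?_
    · rw [card_empty]
      unfold dC
      omega
    · intro L W' J' k1 k2 k3 k4 k5 k6 k7
      have hJ' : ∀ Z ∈ J', Z ∈ J0 := fun Z hZ => ((k7 Z).1 hZ).1
      have hW' : ∀ w ∈ W', w ∈ W0 := fun w hw => ((k6 w).1 hw).1
      have hlc : LC W' J' :=
        { hWn := k4
          hJn := k5
          hne := fun Z hZ => h0.hne Z (hJ' Z hZ)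
          hJW := fun Z hZ z hz hw => h0.hJW Z (hJ' Z hZ) z hz (hW' z hw)
          hdis := fun Z hZ Z' hZ' hne => h0.hdis Z (hJ' Z hZ) Z' (hJ' Z' hZ') hne }
      unfold leafB
      rw [Bool.or_eq_true]
      left
      rw [sgl_iff hlc]
      refine ⟨fun j => g ⟨j.1, hJ' j.1 j.2⟩, fun j => ?_, fun i j hij => hd _ _ fun he =>
        hij (Subtype.ext (Subtype.mk.inj he))⟩
      have hjY : (⟨j.1, hJ' j.1 j.2⟩ : {Z // Z ∈ J0}) ∉ Y := fun h =>
        ((k7 j.1).1 j.2).2 _ h rfl
      rcases hg ⟨j.1, hJ' j.1 j.2⟩ with ⟨c, hc, h1, h2⟩ | ⟨a, ha, b, hb, h1, h2, h3, h4⟩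
      · refine ⟨c, ?_, sg3_zero.1 h1, h2⟩
        rw [k6]
        refine ⟨List.mem_toFinset.1 hc, notMem_empty c, fun i hi hc' => ?_⟩
        refine disjoint_left.1 (hd i ⟨j.1, hJ' j.1 j.2⟩ fun he => hjY (he ▸ hi)) hc' ?_
        rw [h2]; simp
      · exfalso
        refine hjY (mem_filter.2 ⟨mem_univ _, ?_⟩)
        rw [h4]
        refine card_pair fun he => ?_
        rw [he] at h1
        rw [h1] at h2
        exact absurd h2 (by decide)
  · push Not at hYc
    obtain ⟨R, hRY, hRc⟩ := exists_subset_card_eq hYc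
    set U := R.biUnion g with hU
    have hUc : U.card = 16 * qC t := by
      rw [hU, card_biUnion (fun i _ j _ hij => hd i j hij),
        sum_congr rfl fun i hi => (mem_filter.1 (hRY hi)).2, sum_const, smul_eq_mul, hRc]
      ring
    have hUW : U ⊆ W0.toFinset := by
      intro x hx
      obtain ⟨i, _, hx⟩ := mem_biUnion.1 hx
      exact List.mem_toFinset.2 (hgW i x hx)
    set H := W0.toFinset.filter fun w => U.card < 16 * (U.filter fun u => Spl E Zs w u).card
      with hHdef
    have hH : H.card < 32 * t := by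
      refine heavy ht U H hUW (filter_subset _ _) ?_ (fun w hw => (mem_filter.1 hw).2)
      rw [hUc]
      unfold qC
      omega
    set D2 : Finset {Z // Z ∈ J0} := univ.filter fun i => ∃ x ∈ g i, x ∈ H with hD2
    have hD2c : D2.card ≤ H.card := card_meet hd H
    set D := R ∪ D2 with hD
    have hDc : D.card ≤ R.card + D2.card := card_union_le _ _
    set X := H \ D.biUnion g with hX
    have hXc : X.card ≤ H.card := card_le_card sdiff_subset
    refine rec_guess g hg hd (dC t) D X [] W0 J0 ?_ h0.hWn h0.hJn (fun i _ => i.2)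
      (fun i _ x hx => hgW i x hx) ?_ ?_ ?_
    · unfold dC
      omega
    · intro x hx
      exact List.mem_toFinset.1 (mem_filter.1 (mem_sdiff.1 hx).1).1
    · intro i hi x hx hx'
      exact (mem_sdiff.1 hx').2 (mem_biUnion.2 ⟨i, hi, hx⟩)
    · intro L W' J' k1 k2 k3 k4 k5 k6 k7
      have hJ' : ∀ Z ∈ J', Z ∈ J0 := fun Z hZ => ((k7 Z).1 hZ).1
      have hW' : ∀ w ∈ W', w ∈ W0 := fun w hw => ((k6 w).1 hw).1
      have hlc : LC W' J' :=
        { hWn := k4
          hJn := k5
          hne := fun Z hZ => h0.hne Z (hJ' Z hZ)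
          hJW := fun Z hZ z hz hw => h0.hJW Z (hJ' Z hZ) z hz (hW' z hw)
          hdis := fun Z hZ Z' hZ' hne => h0.hdis Z (hJ' Z hZ) Z' (hJ' Z' hZ') hne }
      unfold leafB
      rw [Bool.or_eq_true, Bool.and_eq_true, Bool.and_eq_true, decide_eq_true_eq,
        List.all_eq_true]
      right
      rw [List.append_nil]
      refine ⟨?_, ?_, ?_⟩
      · have h1 : R ⊆ D.filter fun i => (g i).card = 2 := fun i hi =>
          mem_filter.2 ⟨mem_union_left _ hi, (mem_filter.1 (hRY hi)).2⟩
        have h2 := card_le_card h1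
        rw [hRc] at h2
        unfold lC rC
        unfold qC at *
        omega
      · intro w hw
        rw [decide_eq_true_eq]
        have h1 := (k6 w).1 hw
        have hwH : w ∉ H := by
          intro hwH
          refine h1.2.1 (mem_sdiff.2 ⟨hwH, fun hb => ?_⟩)
          obtain ⟨i, hi, hwi⟩ := mem_biUnion.1 hb
          exact h1.2.2 i hi hwi
        have h2 : ¬ U.card < 16 * (U.filter fun u => Spl E Zs w u).card := fun h3 =>
          hwH (mem_filter.2 ⟨List.mem_toFinset.2 h1.1, h3⟩)
        have h3 : (L.filter fun u => spB E Zs w u).length =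
            (L.toFinset.filter fun u => Spl E Zs w u).card := by
          rw [← List.toFinset_card_of_nodup (k1.filter _)]
          congr 1
          ext u
          rw [List.mem_toFinset, List.mem_filter, mem_filter, List.mem_toFinset]
          rfl
        have h4 : (L.toFinset.filter fun u => Spl E Zs w u) ⊆
            (U.filter fun u => Spl E Zs w u) ∪ D2.biUnion g := by
          intro u hu
          rw [mem_filter, List.mem_toFinset] at hu
          obtain ⟨i, hi, hui⟩ := k2 u hu.1
          rcases mem_union.1 hi with hi | hi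
          · exact mem_union_left _ (mem_filter.2 ⟨mem_biUnion.2 ⟨i, hi, hui⟩, hu.2⟩)
          · exact mem_union_right _ (mem_biUnion.2 ⟨i, hi, hui⟩)
        have h5 : (D2.biUnion g).card ≤ D2.card * 2 := card_biUnion_le_card_mul _ _ _
          fun i _ => hgc i
        have h6 := (card_le_card h4).trans (card_union_le _ _)
        rw [h3]
        unfold rC
        omega
      · rw [coreB_iff hlc]
        refine ⟨fun j => g ⟨j.1, hJ' j.1 j.2⟩, fun j => ?_, fun i j hij => hd _ _ fun he =>
          hij (Subtype.ext (Subtype.mk.inj he))⟩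
        have hjD : (⟨j.1, hJ' j.1 j.2⟩ : {Z // Z ∈ J0}) ∉ D := fun h =>
          ((k7 j.1).1 j.2).2 _ h rfl
        have hin : ∀ x ∈ g ⟨j.1, hJ' j.1 j.2⟩, x ∈ W'.toFinset := by
          intro x hx
          rw [List.mem_toFinset, k6]
          refine ⟨hgW _ x hx, fun hxX => hjD ?_, fun i hi hxi => ?_⟩
          · exact mem_union_right _ (mem_filter.2 ⟨mem_univ _, x, hx, (mem_sdiff.1 hxX).1⟩)
          · exact disjoint_left.1 (hd i ⟨j.1, hJ' j.1 j.2⟩ fun he => hjD (he ▸ hi)) hxi hx
        rcases hg ⟨j.1, hJ' j.1 j.2⟩ with ⟨c, hc, h1, h2⟩ | ⟨a, ha, b, hb, h1, h2, h3, h4⟩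
        · exact Or.inl ⟨c, hin c (by rw [h2]; simp), h1, h2⟩
        · exact Or.inr ⟨a, hin a (by rw [h4]; simp), b, hin b (by rw [h4]; simp), h1, h2, h4⟩

/-- correctness of the search -/
theorem rec_iff {J0 : List (List ℕ)} {W0 : List ℕ} (h0 : LC W0 J0) {t : ℕ}
    (hC : Ctx W0.toFinset (sgJ E J0) (GG E).Adj (Spl E Zs))
    (ht : KF W0.toFinset (Spl E Zs) t) :
    recB (rC t) (lC t) (dC t) ((E, Zs), ([], (W0, J0))) = true ↔
      ∃ g : {Z // Z ∈ J0} → Finset ℕ, (∀ i, Gd E W0 J0 i (g i)) ∧
        ∀ i j, i ≠ j → Disjoint (g i) (g j) := by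
  constructor
  · intro h
    refine rec_sound h0 hC ht (dC t) [] W0 J0 (fun _ => ∅) ∅ ?_ h
    exact
      { hW := fun w hw => hw
        hWn := h0.hWn
        hJ := fun Z hZ => hZ
        hJn := h0.hJn
        good := fun i hi => absurd i.2 hi
        disW := fun i hi => absurd i.2 hi
        dis := fun i j hi => absurd i.2 hi
        hR := fun i hi => absurd hi (notMem_empty i)
        hU := by simp
        hUl := by simp }
  · rintro ⟨g, hg, hd⟩
    exact rec_complete h0 ht g hg hd

end Pool.Agent.Helper878_bs
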