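import Pool.Agent.Helper878_mm.Algo
import Pool.Agent.Helper878_c5.Main

/-!
# The algorithm for `3P_1`-free graphs without large bicliques of split pairs
-/

set_option autoImplicit false

namespace Pool.Agent.Helper878_bs

open Pool.Agent.NPC Pool.Agent.H671R2.SF Pool.Agent.Helper878_dcs
open Pool.Agent.Helper878_mm (zB s1B coreB)
open Pool.Agent.Helper878_c5 (an bn nodC)

/-- `a` and `b` split a terminal set -/
def spB (E : List (ℕ × ℕ)) (Zs : List (List ℕ)) (a b : ℕ) : Bool :=
  Zs.any fun Z => Z.any fun z => Z.any fun z' => adj E z a && (adj E z' b && (!adj E z z' &&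
    (!adj E z b && (!adj E a z' && !adj E a b))))

/-- an adjacent pair connecting `Z` -/
def prB (E : List (ℕ × ℕ)) (Z : List ℕ) (a b : ℕ) : Bool :=
  !zB E Z a && (s1B E Z a && (!zB E Z b && (!s1B E Z b && adj E a b)))

/-- the vertices of `W` except `a` -/
def rm (a : ℕ) (W : List ℕ) : List ℕ := W.filter fun w => !decide (w = a)

/-- the terminal sets of `J` except `Z` -/
def rmZ (Z : List ℕ) (J : List (List ℕ)) : List (List ℕ) := J.filter fun Y => !decide (Y = Z)

def lnkS (E : List (ℕ × ℕ)) (W : List ℕ) (J : List (List ℕ)) : List ((ℕ × ℕ) × (ℕ × ℕ)) :=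
  ((J ×ˢ W).filter fun p => zB E p.1 p.2).map fun p => (an p.1, bn p.2)

/-- every terminal set gets a vertex -/
def sglB (E : List (ℕ × ℕ)) (W : List ℕ) (J : List (List ℕ)) : Bool :=
  decide (J.length ≤ (maxM (nodC W J) (lnkS E W J)).length)

/-- the final test with parameters `r` and `l` -/
def leafB (r l : ℕ) (E : List (ℕ × ℕ)) (Zs : List (List ℕ)) (Ul W : List ℕ)
    (J : List (List ℕ)) : Bool :=
  sglB E W J || (decide (l ≤ Ul.length) && ((W.all fun w =>
    decide ((Ul.filter fun u => spB E Zs w u).length ≤ r)) && coreB E W J))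

/-- a state of the search: the edges and the terminal sets, the vertices in the chosen pairs, the
remaining vertices and the remaining terminal sets -/
abbrev St : Type := (List (ℕ × ℕ) × List (List ℕ)) × (List ℕ × (List ℕ × List (List ℕ)))

/-- the search with depth `m` -/
def recB (r l : ℕ) : ℕ → St → Bool
  | 0, x => leafB r l x.1.1 x.1.2 x.2.1 x.2.2.1 x.2.2.2
  | m + 1, x => leafB r l x.1.1 x.1.2 x.2.1 x.2.2.1 x.2.2.2 ||
      ((x.2.2.1.any fun a => recB r l m (x.1, (x.2.1, (rm a x.2.2.1, x.2.2.2)))) ||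
      ((x.2.2.2.any fun Z => x.2.2.1.any fun a => zB x.1.1 Z a &&
        recB r l m (x.1, (x.2.1, (rm a x.2.2.1, rmZ Z x.2.2.2)))) ||
      (x.2.2.2.any fun Z => x.2.2.1.any fun a => x.2.2.1.any fun b => prB x.1.1 Z a b &&
        recB r l m (x.1, (a :: b :: x.2.1, (rm b (rm a x.2.2.1), rmZ Z x.2.2.2))))))

/-- the search for a biclique of split pairs -/
def bicB (t : ℕ) : ℕ → ((List (ℕ × ℕ) × List (List ℕ)) × (List ℕ × List ℕ)) → Bool
  | 0, x => decide (t ≤ x.2.2.length)
  | s + 1, x => x.2.1.any fun v =>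
      bicB t s (x.1, (rm v x.2.1, x.2.2.filter fun y => spB x.1.1 x.1.2 v y))

section
variable {γ : Type} [TEnc γ] {E : γ → List (ℕ × ℕ)} {V W Z Ul : γ → List ℕ}
  {J Zs : γ → List (List ℕ)} {u v a b : γ → ℕ}

@[fun_prop]
theorem poly_spB (hE : Poly E) (hZs : Poly Zs) (hu : Poly u) (hv : Poly v) :
    Poly (fun x => spB (E x) (Zs x) (u x) (v x)) := by
  unfold spB; fun_prop

@[fun_prop]
theorem poly_prB (hE : Poly E) (hZ : Poly Z) (hu : Poly u) (hv : Poly v) :
    Poly (fun x => prB (E x) (Z x) (u x) (v x)) := by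
  unfold prB; fun_prop

@[fun_prop]
theorem poly_rm (hu : Poly u) (hW : Poly W) : Poly (fun x => rm (u x) (W x)) := by
  unfold rm; fun_prop

@[fun_prop]
theorem poly_rmZ (hZ : Poly Z) (hJ : Poly J) : Poly (fun x => rmZ (Z x) (J x)) := by
  unfold rmZ; fun_prop

@[fun_prop]
theorem poly_lnkS (hE : Poly E) (hW : Poly W) (hJ : Poly J) :
    Poly (fun x => lnkS (E x) (W x) (J x)) := by
  unfold lnkS; fun_prop

@[fun_prop]
theorem poly_sglB (hE : Poly E) (hW : Poly W) (hJ : Poly J) :
    Poly (fun x => sglB (E x) (W x) (J x)) := by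
  unfold sglB; fun_prop

@[fun_prop]
theorem poly_leafB (r l : ℕ) (hE : Poly E) (hZs : Poly Zs) (hU : Poly Ul) (hW : Poly W)
    (hJ : Poly J) : Poly (fun x => leafB r l (E x) (Zs x) (Ul x) (W x) (J x)) := by
  unfold leafB; fun_prop

end

theorem poly_recB (r l : ℕ) : ∀ m, Poly (recB r l m)
  | 0 => by
    have e : recB r l 0 = fun x : St => leafB r l x.1.1 x.1.2 x.2.1 x.2.2.1 x.2.2.2 := by
      funext x; rfl
    rw [e]
    fun_prop
  | m + 1 => by
    have ih := poly_recB r l m
    have e : recB r l (m + 1) = fun x : St => leafB r l x.1.1 x.1.2 x.2.1 x.2.2.1 x.2.2.2 ||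
      ((x.2.2.1.any fun a => recB r l m (x.1, (x.2.1, (rm a x.2.2.1, x.2.2.2)))) ||
      ((x.2.2.2.any fun Z => x.2.2.1.any fun a => zB x.1.1 Z a &&
        recB r l m (x.1, (x.2.1, (rm a x.2.2.1, rmZ Z x.2.2.2)))) ||
      (x.2.2.2.any fun Z => x.2.2.1.any fun a => x.2.2.1.any fun b => prB x.1.1 Z a b &&
        recB r l m (x.1, (a :: b :: x.2.1, (rm b (rm a x.2.2.1), rmZ Z x.2.2.2)))))) := by
      funext x; rfl
    rw [e]
    generalize recB r l m = f at ih
    fun_prop

theorem poly_bicB (t : ℕ) : ∀ s, Poly (bicB t s)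
  | 0 => by
    have e : bicB t 0 = fun x => decide (t ≤ x.2.2.length) := by
      funext x; rfl
    rw [e]
    fun_prop
  | s + 1 => by
    have ih := poly_bicB t s
    have e : bicB t (s + 1) = fun x => x.2.1.any fun v =>
      bicB t s (x.1, (rm v x.2.1, x.2.2.filter fun y => spB x.1.1 x.1.2 v y)) := by
      funext x; rfl
    rw [e]
    generalize bicB t s = f at ih
    fun_prop

end Pool.Agent.Helper878_bs
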