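import Pool.Agent.Helper878_bs.Fix

/-!
# Repairing all split pairs
-/

set_option autoImplicit false
set_option linter.unusedSectionVars false

namespace Pool.Agent.Helper878_bs

open Finset Pool.Agent.Helper878_mm
open scoped Classical

variable {α ι : Type} [DecidableEq α] [DecidableEq ι]

theorem KF.pos {W : Finset α} {Sp : α → α → Prop} {t : ℕ} (ht : KF W Sp t) : 1 ≤ t := by
  rcases Nat.eq_zero_or_pos t with h | h
  · subst h
    obtain ⟨x, hx, _⟩ := ht ∅ ∅ (empty_subset _) (empty_subset _) card_empty card_empty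
    exact absurd hx (notMem_empty x)
  · exact h

/-- the size of the bicliques found by counting -/
def mC (t : ℕ) : ℕ := 2 ^ (32 * t) * t

/-- Few vertices are joined to many vertices of a large set. -/
theorem heavy {W : Finset α} {Sp : α → α → Prop} {t : ℕ} (ht : KF W Sp t) (U H : Finset α)
    (hU : U ⊆ W) (hH : H ⊆ W) (hc : 32 * mC t ≤ U.card)
    (hh : ∀ w ∈ H, U.card < 16 * (U.filter fun u => Sp w u).card) : H.card < 32 * t := by
  by_contra hn
  push Not at hn
  have tp := ht.pos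
  obtain ⟨H0, hH0, c0⟩ := exists_subset_card_eq hn
  have dc := sum_card_bipartiteAbove_eq_sum_card_bipartiteBelow (s := H0) (t := U)
    (fun w u => Sp w u)
  have e1 : ∀ w ∈ H0, (U.card + 1) ≤ 16 * (U.bipartiteAbove (fun w u => Sp w u) w).card := by
    intro w hw
    exact hh w (hH0 hw)
  have e2 : H0.card * (U.card + 1) ≤
      16 * ∑ w ∈ H0, (U.bipartiteAbove (fun w u => Sp w u) w).card := by
    rw [mul_sum, ← smul_eq_mul, ← sum_const]
    exact sum_le_sum e1
  set big := U.filter fun u => t ≤ (H0.bipartiteBelow (fun w u => Sp w u) u).card with hbig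
  have e3 : ∑ u ∈ U, (H0.bipartiteBelow (fun w u => Sp w u) u).card ≤
      32 * t * big.card + t * U.card := by
    have : ∀ u ∈ U, (H0.bipartiteBelow (fun w u => Sp w u) u).card ≤
        (if t ≤ (H0.bipartiteBelow (fun w u => Sp w u) u).card then 32 * t else 0) + t := by
      intro u _
      split_ifs with h1
      · have : (H0.bipartiteBelow (fun w u => Sp w u) u).card ≤ H0.card :=
          card_le_card (filter_subset _ _)
        omega
      · omega
    refine (sum_le_sum this).trans ?_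
    rw [sum_add_distrib, ← sum_filter, sum_const, sum_const, smul_eq_mul, smul_eq_mul,
      mul_comm big.card, mul_comm U.card]
  rw [dc] at e2
  rw [c0] at e2
  have e4 : 2 * t * (U.card + 1) ≤ 32 * t * big.card + t * U.card := by
    have : 16 * (2 * t * (U.card + 1)) ≤ 16 * (32 * t * big.card + t * U.card) := by
      calc 16 * (2 * t * (U.card + 1)) = 32 * t * (U.card + 1) := by ring
        _ ≤ _ := e2
        _ ≤ _ := Nat.mul_le_mul_left 16 e3
    exact Nat.le_of_mul_le_mul_left this (by norm_num)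
  have e5 : U.card + 2 ≤ 32 * big.card := by
    have : t * (U.card + 2) ≤ t * (32 * big.card) := by nlinarith
    exact Nat.le_of_mul_le_mul_left this tp
  have e6 : mC t < big.card := by omega
  obtain ⟨P, hP, hP'⟩ := exists_lt_card_fiber_of_mul_lt_card_of_maps_to (s := big)
    (t := H0.powerset) (f := fun u => H0.bipartiteBelow (fun w u => Sp w u) u) (n := t)
    (fun u _ => mem_powerset.2 (filter_subset _ _))
    (by rw [card_powerset, c0]; exact e6)
  obtain ⟨Y, hY, cY⟩ := exists_subset_card_eq hP'.le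
  obtain ⟨y0, hy0⟩ : Y.Nonempty := by rw [← card_pos]; omega
  have hy0' := mem_filter.1 (hY hy0)
  have hPc : t ≤ P.card := by
    have := (mem_filter.1 hy0'.1).2
    rw [hy0'.2] at this
    exact this
  obtain ⟨X, hX, cX⟩ := exists_subset_card_eq hPc
  obtain ⟨x, hx, y, hy, hxy⟩ := ht X Y
    (fun x hx => hH (hH0 (mem_powerset.1 hP (hX hx))))
    (fun y hy => hU (mem_filter.1 (mem_filter.1 (hY hy)).1).1) cX cY
  have h1 := hX hx
  rw [← (mem_filter.1 (hY hy)).2] at h1
  exact hxy (mem_filter.1 h1).2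

section
variable {W : Finset α} {σ : ι → α → Fin 3} {A Sp : α → α → Prop}

/-- the number of pairs reached from a pair -/
theorem card_near (V : Finset ι) {o : ι → Finset α} (hd : ∀ i j, i ≠ j → Disjoint (o i) (o j))
    (x : α) : (V.filter fun j => ∃ y ∈ o j, Sp x y).card ≤
      ((V.biUnion o).filter fun u => Sp x u).card := by
  have hex : ∀ j, ∃ y, j ∈ (V.filter fun j => ∃ y ∈ o j, Sp x y) → y ∈ o j ∧ Sp x y := by
    intro j
    by_cases hj : j ∈ (V.filter fun j => ∃ y ∈ o j, Sp x y)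
    · obtain ⟨y, h1, h2⟩ := (mem_filter.1 hj).2
      exact ⟨y, fun _ => ⟨h1, h2⟩⟩
    · exact ⟨x, fun h => absurd h hj⟩
  choose f hf using hex
  refine card_le_card_of_injOn f ?_ ?_
  · intro j hj
    have h1 := hf j (mem_coe.1 hj)
    exact mem_coe.2 (mem_filter.2 ⟨mem_biUnion.2 ⟨j, (mem_filter.1 (mem_coe.1 hj)).1, h1.1⟩, h1.2⟩)
  · intro j hj k hk he
    by_contra hne
    exact disjoint_left.1 (hd j k hne) (hf j (mem_coe.1 hj)).1 (he ▸ (hf k (mem_coe.1 hk)).1)

theorem card_far (V : Finset ι) {o : ι → Finset α} (hd : ∀ i j, i ≠ j → Disjoint (o i) (o j))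
    {s : Finset α} {a b : α} (hs : s = {a, b}) {r : ℕ}
    (hr : ∀ x ∈ s, ((V.biUnion o).filter fun u => Sp x u).card ≤ r) :
    V.card ≤ (V.filter fun j => ∀ x ∈ s, ∀ y ∈ o j, ¬ Sp x y).card + 2 * r := by
  have h1 := (card_near V hd a (Sp := Sp)).trans (hr a (by rw [hs]; simp))
  have h2 := (card_near V hd b (Sp := Sp)).trans (hr b (by rw [hs]; simp))
  have h3 : V ⊆ (V.filter fun j => ∀ x ∈ s, ∀ y ∈ o j, ¬ Sp x y) ∪
      ((V.filter fun j => ∃ y ∈ o j, Sp a y) ∪ V.filter fun j => ∃ y ∈ o j, Sp b y) := by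
    intro j hj
    by_cases e : ∀ x ∈ s, ∀ y ∈ o j, ¬ Sp x y
    · exact mem_union_left _ (mem_filter.2 ⟨hj, e⟩)
    · push Not at e
      obtain ⟨x, hx, y, hy, hxy⟩ := e
      rw [hs, mem_insert, mem_singleton] at hx
      refine mem_union_right _ ?_
      rcases hx with rfl | rfl
      · exact mem_union_left _ (mem_filter.2 ⟨hj, y, hy, hxy⟩)
      · exact mem_union_right _ (mem_filter.2 ⟨hj, y, hy, hxy⟩)
  have h4 := (card_le_card h3).trans (card_union_le _ _)
  have h5 := card_union_le (V.filter fun j => ∃ y ∈ o j, Sp a y)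
    (V.filter fun j => ∃ y ∈ o j, Sp b y)
  omega

/-- the bound on the number of split pairs -/
def c1 (t : ℕ) : ℕ := 16 * mC t + 32 * t

variable [Fintype ι]

/-- the indices with a split pair -/
noncomputable def Vb (W : Finset α) (σ : ι → α → Fin 3) (A : α → α → Prop) (o : ι → Finset α) :
    Finset ι := univ.filter fun i => ¬ Good W σ A i (o i)

theorem mem_Vb {o : ι → Finset α} {i : ι} : i ∈ Vb W σ A o ↔ ¬ Good W σ A i (o i) := by
  unfold Vb; rw [mem_filter]; simp

/-- a solution of the relaxed problem -/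
structure Rel (W : Finset α) (σ : ι → α → Fin 3) (o : ι → Finset α) : Prop where
  opt : ∀ i, IsOpt W σ i (o i)
  dis : ∀ i j, i ≠ j → Disjoint (o i) (o j)

theorem Vb_lt {o o' : ι → Finset α} {i : ι} (J : Finset ι) (hi : i ∈ Vb W σ A o)
    (h1 : ∀ k, k ∉ insert i J → o' k = o k) (h2 : ∀ k ∈ insert i J, Good W σ A k (o' k)) :
    Vb W σ A o' ⊆ (Vb W σ A o).erase i := by
  intro k hk
  rw [mem_Vb] at hk
  have hkn : k ∉ insert i J := fun h => hk (h2 k h)
  rw [h1 k hkn] at hk
  exact mem_erase.2 ⟨fun he => hkn (he ▸ mem_insert_self i J), mem_Vb.2 hk⟩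

/-- many split pairs can be repaired among themselves -/
theorem Ctx.stepA (h : Ctx W σ A Sp) {t : ℕ} (ht : KF W Sp t) {o : ι → Finset α}
    (ho : Rel W σ o) (hc : c1 t ≤ (Vb W σ A o).card) :
    ∃ (K : Finset ι) (o' : ι → Finset α), K ⊆ Vb W σ A o ∧ Rel W σ o' ∧
      (Vb W σ A o').card < (Vb W σ A o).card ∧ (∀ k, k ∉ K → o' k = o k) ∧
      ∀ k ∈ K, o' k ⊆ (Vb W σ A o).biUnion o := by
  have tp := ht.pos
  set V := Vb W σ A o with hV
  have hsp : ∀ i, ∃ a b, i ∈ V → SP W σ i (o i) a b ∧ Sp a b := by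
    intro i
    by_cases hi : i ∈ V
    · obtain ⟨a, b, h1⟩ := h.bad (ho.opt i) (mem_Vb.1 hi)
      exact ⟨a, b, fun _ => h1⟩
    · by_cases hα : Nonempty α
      · exact ⟨hα.some, hα.some, fun h => absurd h hi⟩
      · exfalso
        rcases ho.opt i with ⟨c, _⟩ | ⟨a, _⟩
        · exact hα ⟨c⟩
        · exact hα ⟨a⟩
  choose a b hab using hsp
  set U := V.biUnion o with hU
  have hUc : U.card = 2 * V.card := by
    rw [hU, card_biUnion (fun i _ j _ hij => ho.dis i j hij)]
    rw [sum_congr rfl fun i hi => (hab i hi).1.card, sum_const, smul_eq_mul, mul_comm]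
  have hUW : U ⊆ W := by
    intro x hx
    obtain ⟨i, _, hx⟩ := mem_biUnion.1 hx
    exact opt_sub (ho.opt i) hx
  have hc' : 16 * mC t + 32 * t ≤ V.card := hc
  set H := U.filter fun w => U.card < 16 * (U.filter fun u => Sp w u).card with hHdef
  have hH : H.card < 32 * t := by
    refine heavy ht U H hUW ((filter_subset _ _).trans hUW) (by omega) ?_
    intro w hw
    exact (mem_filter.1 hw).2
  -- an index without heavy vertices
  obtain ⟨i, hi, hiH⟩ : ∃ i ∈ V, ∀ x ∈ o i, x ∉ H := by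
    by_contra hn
    push Not at hn
    have hex : ∀ i, ∃ x, i ∈ V → x ∈ o i ∧ x ∈ H := by
      intro i
      by_cases hi : i ∈ V
      · obtain ⟨x, h1, h2⟩ := hn i hi
        exact ⟨x, fun _ => ⟨h1, h2⟩⟩
      · exact ⟨a i, fun h => absurd h hi⟩
    choose f hf using hex
    have : V.card ≤ H.card := by
      refine card_le_card_of_injOn f (fun i hi => mem_coe.2 (hf i (mem_coe.1 hi)).2) ?_
      intro j hj k hk he
      by_contra hne
      exact disjoint_left.1 (ho.dis j k hne) (hf j (mem_coe.1 hj)).1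
        (he ▸ (hf k (mem_coe.1 hk)).1)
    omega
  have hlight : ∀ x ∈ o i, (U.filter fun u => Sp x u).card ≤ V.card / 8 := by
    intro x hx
    have h1 : x ∈ U := mem_biUnion.2 ⟨i, hi, hx⟩
    have h2 : ¬ U.card < 16 * (U.filter fun u => Sp x u).card := fun h3 =>
      hiH x hx (mem_filter.2 ⟨h1, h3⟩)
    omega
  have hfar := card_far V ho.dis (hab i hi).1.hs hlight
  set S := (V.filter fun j => ∀ x ∈ o i, ∀ y ∈ o j, ¬ Sp x y).erase i with hS
  have hSc : 4 * t ≤ S.card := by
    have := pred_card_le_card_erase (s := V.filter fun j => ∀ x ∈ o i, ∀ y ∈ o j, ¬ Sp x y)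
      (a := i)
    rw [← hS] at this
    omega
  have hSV : S ⊆ V := (erase_subset _ _).trans (filter_subset _ _)
  obtain ⟨J, o', hJ, _, h1, h2, h3⟩ := h.fix ht ho.dis (hab i hi).1 S (notMem_erase _ _) a b
    (fun j hj => (hab j (hSV hj)).1)
    (fun j hj => (mem_filter.1 (mem_of_mem_erase hj)).2) hSc
  have hKV : insert i J ⊆ V := insert_subset hi (hJ.trans hSV)
  refine ⟨insert i J, o', hKV, ⟨?_, h3⟩, ?_, h1, ?_⟩
  · intro k
    by_cases hk : k ∈ insert i J
    · exact (h2 k hk).1.isOpt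
    · rw [h1 k hk]; exact ho.opt k
  · refine (card_le_card (Vb_lt J hi h1 (fun k hk => (h2 k hk).1))).trans_lt ?_
    exact card_erase_lt_of_mem hi
  · intro k hk
    exact (h2 k hk).2.trans (biUnion_subset_biUnion_of_subset_left o hKV)

/-- all split pairs can be repaired with the help of a reserve -/
theorem Ctx.stepB (h : Ctx W σ A Sp) {t : ℕ} (ht : KF W Sp t) (r : ℕ) : ∀ (n : ℕ)
    (o : ι → Finset α) (R : Finset ι), (Vb W σ A o).card ≤ n → Rel W σ o →
    (∀ j ∈ R, Good W σ A j (o j) ∧ ∃ c d, SP W σ j (o j) c d) →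
    (∀ i ∈ Vb W σ A o, ∀ x ∈ o i, ((R.biUnion o).filter fun u => Sp x u).card ≤ r) →
    2 * r + 4 * t + 2 * n ≤ R.card →
    ∃ o' : ι → Finset α, (∀ i, Good W σ A i (o' i)) ∧ ∀ i j, i ≠ j → Disjoint (o' i) (o' j) := by
  intro n
  induction n with
  | zero =>
    intro o R hV ho _ _ _
    refine ⟨o, fun i => ?_, ho.dis⟩
    by_contra hi
    have := card_pos.2 ⟨i, mem_Vb.2 hi⟩
    omega
  | succ n ih =>
    intro o R hV ho hR hl hc
    by_cases hne : (Vb W σ A o).Nonempty
    swap
    · refine ⟨o, fun i => ?_, ho.dis⟩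
      by_contra hi
      exact hne ⟨i, mem_Vb.2 hi⟩
    obtain ⟨i, hi⟩ := hne
    obtain ⟨a, b, hab, _⟩ := h.bad (ho.opt i) (mem_Vb.1 hi)
    have hsp : ∀ j, ∃ c d, j ∈ R → SP W σ j (o j) c d := by
      intro j
      by_cases hj : j ∈ R
      · obtain ⟨c, d, h1⟩ := (hR j hj).2
        exact ⟨c, d, fun _ => h1⟩
      · exact ⟨a, a, fun h => absurd h hj⟩
    choose c d hcd using hsp
    have hiR : i ∉ R := fun h1 => (mem_Vb.1 hi) (hR i h1).1
    have hfar := card_far R ho.dis hab.hs (hl i hi)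
    set S := R.filter fun j => ∀ x ∈ o i, ∀ y ∈ o j, ¬ Sp x y with hS
    have hSR : S ⊆ R := filter_subset _ _
    obtain ⟨J, o', hJ, hJc, h1, h2, h3⟩ := h.fix ht ho.dis hab S (fun h1 => hiR (hSR h1)) c d
      (fun j hj => hcd j (hSR hj)) (fun j hj => (mem_filter.1 hj).2) (by omega)
    have hrel : Rel W σ o' := by
      refine ⟨fun k => ?_, h3⟩
      by_cases hk : k ∈ insert i J
      · exact (h2 k hk).1.isOpt
      · rw [h1 k hk]; exact ho.opt k
    have hVb := Vb_lt J hi h1 (fun k hk => (h2 k hk).1)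
    have hVe : ∀ k ∈ Vb W σ A o', k ∈ Vb W σ A o ∧ o' k = o k := by
      intro k hk
      refine ⟨mem_of_mem_erase (hVb hk), h1 k fun hk' => ?_⟩
      exact (mem_Vb.1 hk) (h2 k hk').1
    have hRe : ∀ k ∈ R \ J, o' k = o k := by
      intro k hk
      rw [mem_sdiff] at hk
      refine h1 k fun hk' => ?_
      rcases mem_insert.1 hk' with rfl | hk'
      · exact hiR hk.1
      · exact hk.2 hk'
    refine ih o' (R \ J) ?_ hrel ?_ ?_ ?_
    · have := card_le_card hVb
      rw [card_erase_of_mem hi] at this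
      omega
    · intro j hj
      rw [hRe j hj]
      exact hR j (mem_sdiff.1 hj).1
    · intro k hk x hx
      obtain ⟨hk1, hk2⟩ := hVe k hk
      rw [hk2] at hx
      refine le_trans (card_le_card (filter_subset_filter _ ?_)) (hl k hk1 x hx)
      intro y hy
      obtain ⟨j, hj, hy⟩ := mem_biUnion.1 hy
      rw [hRe j hj] at hy
      exact mem_biUnion.2 ⟨j, (mem_sdiff.1 hj).1, hy⟩
    · have := le_card_sdiff J R
      omega

/-- Soundness: a relaxed solution whose indices outside `P` use only vertices light with respect to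
a reserve can be turned into a solution. -/
theorem Ctx.sound (h : Ctx W σ A Sp) {t : ℕ} (ht : KF W Sp t) (r : ℕ) {o : ι → Finset α}
    (ho : Rel W σ o) (P R : Finset ι) (W' : Finset α) (hP : ∀ i ∈ P, Good W σ A i (o i))
    (hR : R ⊆ P) (hR' : ∀ j ∈ R, ∃ c d, SP W σ j (o j) c d) (hW' : ∀ i, i ∉ P → o i ⊆ W')
    (hl : ∀ x ∈ W', ((R.biUnion o).filter fun u => Sp x u).card ≤ r)
    (hc : 2 * r + 4 * t + 2 * c1 t ≤ R.card) :
    ∃ o' : ι → Finset α, (∀ i, Good W σ A i (o' i)) ∧ ∀ i j, i ≠ j → Disjoint (o' i) (o' j) := by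
  -- a relaxed solution with the minimum number of split pairs
  have hmin : ∃ n, ∃ o' : ι → Finset α, Rel W σ o' ∧ (∀ i ∈ P, o' i = o i) ∧
      (∀ i, i ∉ P → o' i ⊆ W') ∧ (Vb W σ A o').card = n :=
    ⟨_, o, ho, fun _ _ => rfl, hW', rfl⟩
  obtain ⟨o', h1, h2, h3, h4⟩ := Nat.find_spec hmin
  have hVP : ∀ i ∈ Vb W σ A o', i ∉ P := by
    intro i hi hiP
    rw [mem_Vb, h2 i hiP] at hi
    exact hi (hP i hiP)
  have hlt : (Vb W σ A o').card < c1 t := by
    by_contra hn
    push Not at hn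
    obtain ⟨K, o'', hK, hr, hlt, e1, e2⟩ := h.stepA ht h1 hn
    have := Nat.find_min' hmin ⟨o'', hr, ?_, ?_, rfl⟩
    · omega
    · intro i hi
      rw [e1 i (fun hiK => hVP i (hK hiK) hi)]
      exact h2 i hi
    · intro i hi
      by_cases hiK : i ∈ K
      · refine (e2 i hiK).trans ?_
        intro x hx
        obtain ⟨j, hj, hx⟩ := mem_biUnion.1 hx
        exact h3 j (hVP j hj) hx
      · rw [e1 i hiK]; exact h3 i hi
  have hRb : R.biUnion o' = R.biUnion o := by
    refine Finset.biUnion_congr rfl fun i hi => h2 i (hR hi)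
  refine h.stepB ht r (c1 t) o' R hlt.le h1 ?_ ?_ hc
  · intro j hj
    rw [h2 j (hR hj)]
    exact ⟨hP j (hR hj), hR' j hj⟩
  · intro i hi x hx
    rw [hRb]
    exact hl x (h3 i (hVP i hi) hx)

end

end Pool.Agent.Helper878_bs
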