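import Pool.Agent.Helper878_bs.Algo
import Pool.Agent.Helper878_bs.Sound
import Pool.Agent.Helper878_mm.Bridge

/-!
# Correctness of the search
-/

set_option autoImplicit false
set_option linter.unusedSectionVars false

namespace Pool.Agent.Helper878_bs

open Finset Pool.Agent.H671R2.SF Pool.Agent.Helper878_dcs Pool.Agent.Helper878_mm
open Pool.Agent.Helper878_c5 (an bn nodC)
open scoped Classical

variable {E : List (ℕ × ℕ)} {Zs : List (List ℕ)} {W : List ℕ} {J : List (List ℕ)}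

theorem mem_rm {a w : ℕ} : w ∈ rm a W ↔ w ∈ W ∧ w ≠ a := by
  unfold rm; rw [List.mem_filter]; simp

theorem mem_rmZ {Z Y : List ℕ} : Y ∈ rmZ Z J ↔ Y ∈ J ∧ Y ≠ Z := by
  unfold rmZ; rw [List.mem_filter]; simp

theorem nodup_rm {a : ℕ} (h : W.Nodup) : (rm a W).Nodup := h.filter _

theorem nodup_rmZ {Z : List ℕ} (h : J.Nodup) : (rmZ Z J).Nodup := h.filter _

/-- the relation computed by `spB` -/
def Spl (E : List (ℕ × ℕ)) (Zs : List (List ℕ)) (a b : ℕ) : Prop := spB E Zs a b = true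

theorem pr_iff {Z : List ℕ} {a b : ℕ} : prB E Z a b = true ↔
    sg3 E Z a = 1 ∧ sg3 E Z b = 2 ∧ (GG E).Adj a b := by
  unfold prB
  rw [sg3_one, sg3_two]
  simp only [Bool.and_eq_true, Bool.not_eq_true', adj_iff]
  tauto

theorem sgl_iff (h : LC W J) : sglB E W J = true ↔ ∃ o : {Z // Z ∈ J} → Finset ℕ,
    (∀ i, ∃ w ∈ W, zB E i.1 w = true ∧ o i = {w}) ∧ ∀ i j, i ≠ j → Disjoint (o i) (o j) := by
  have key : Assign (Finset.univ : Finset {Z // Z ∈ J})
      (fun i w => w ∈ W ∧ zB E i.1 w = true) (fun _ _ => False) ↔ sglB E W J = true := by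
    unfold sglB
    rw [decide_eq_true_eq, ← card_J h.hJn, ← Finset.card_univ]
    refine assign_iff Finset.univ _ _ W.toFinset (fun i => an i.1) bn ?_ ?_
      ?_ (nodC W J) (lnkS E W J) ?_ ?_ ?_ ?_ ?_
    · intro i _ j _ hij
      exact Subtype.ext (h.nm_inj i.2 j.2 (Prod.mk.inj hij).1)
    · intro a b hab
      exact (Prod.mk.inj hab).1
    · intro i _ w hw
      exact absurd (Prod.mk.inj hw).2 (by decide)
    · unfold nodC
      rw [List.nodup_append]
      refine ⟨List.Nodup.map_on (fun Z hZ Z' hZ' he => h.nm_inj hZ hZ' (Prod.mk.inj he).1) h.hJn,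
        h.hWn.map (fun a b hab => (Prod.mk.inj hab).1), ?_⟩
      intro a ha b hb hab
      obtain ⟨Z, _, rfl⟩ := List.mem_map.1 ha
      obtain ⟨w, _, rfl⟩ := List.mem_map.1 hb
      exact absurd (Prod.mk.inj hab).2 (by decide)
    · intro v
      unfold nodC
      rw [List.mem_append, List.mem_map, List.mem_map]
      refine or_congr ?_ ?_
      · constructor
        · rintro ⟨Z, hZ, rfl⟩
          exact ⟨⟨Z, hZ⟩, Finset.mem_univ _, rfl⟩
        · rintro ⟨i, _, hi⟩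
          exact ⟨i.1, i.2, hi.symm⟩
      · constructor
        · rintro ⟨w, hw, rfl⟩
          exact ⟨w, List.mem_toFinset.2 hw, rfl⟩
        · rintro ⟨w, hw, rfl⟩
          exact ⟨w, List.mem_toFinset.1 hw, rfl⟩
    · intro x y
      unfold lnkS
      rw [List.mem_map]
      constructor
      · rintro ⟨⟨Z, w⟩, hm, he⟩
        rw [List.mem_filter, List.mem_product] at hm
        obtain ⟨⟨hZ, hw⟩, hz⟩ := hm
        exact Or.inl ⟨⟨Z, hZ⟩, Finset.mem_univ _, w, List.mem_toFinset.2 hw,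
          (Prod.mk.inj he).1.symm, (Prod.mk.inj he).2.symm, hw, hz⟩
      · rintro (⟨i, _, w, _, h1, h2, h3, h4⟩ | ⟨w, _, w', _, _, _, _, h4⟩)
        · refine ⟨(i.1, w), List.mem_filter.2 ⟨List.mem_product.2 ⟨i.2, h3⟩, h4⟩, ?_⟩
          rw [h1, h2]
        · exact absurd h4 id
    · intro i w hw
      exact List.mem_toFinset.2 hw.1
    · intro a b hab
      exact absurd hab id
  rw [← key]
  constructor
  · rintro ⟨g, h1, h2⟩
    refine ⟨g, fun i => ?_, fun i j hij => h1 i (mem_univ _) j (mem_univ _) hij⟩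
    rcases h2 i (mem_univ _) with ⟨w, h3, h4, h5⟩ | ⟨_, _, _, _, h4⟩
    · exact ⟨w, h4, h5, h3⟩
    · exact absurd h4 id
  · rintro ⟨o, h1, h2⟩
    refine ⟨o, fun i _ j _ hij => h2 i j hij, fun i _ => ?_⟩
    obtain ⟨w, h3, h4, h5⟩ := h1 i
    exact Or.inl ⟨w, h5, h3, h4⟩

/-- an option, as a predicate on terminal sets -/
abbrev Gd (E : List (ℕ × ℕ)) (W : List ℕ) (J : List (List ℕ)) (i : {Z // Z ∈ J})
    (s : Finset ℕ) : Prop := Good W.toFinset (sgJ E J) (GG E).Adj i s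

/-- the relation between a state and the choices made so far -/
structure Inv (E : List (ℕ × ℕ)) (W0 : List ℕ) (J0 : List (List ℕ)) (Ul W : List ℕ)
    (J : List (List ℕ)) (o : {Z // Z ∈ J0} → Finset ℕ) (R : Finset {Z // Z ∈ J0}) : Prop where
  hW : ∀ w ∈ W, w ∈ W0
  hWn : W.Nodup
  hJ : ∀ Z ∈ J, Z ∈ J0
  hJn : J.Nodup
  good : ∀ i, i.1 ∉ J → Gd E W0 J0 i (o i)
  disW : ∀ i, i.1 ∉ J → ∀ x ∈ o i, x ∉ W
  dis : ∀ i j, i.1 ∉ J → j.1 ∉ J → i ≠ j → Disjoint (o i) (o j)
  hR : ∀ i ∈ R, i.1 ∉ J ∧ ∃ a b, SP W0.toFinset (sgJ E J0) i (o i) a b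
  hU : ∀ u, u ∈ R.biUnion o → u ∈ Ul
  hUl : Ul.length ≤ 2 * R.card

section
variable {W0 : List ℕ} {J0 : List (List ℕ)} {Ul : List ℕ} {o : {Z // Z ∈ J0} → Finset ℕ}
  {R : Finset {Z // Z ∈ J0}}

theorem Inv.lc (h : Inv E W0 J0 Ul W J o R) (h0 : LC W0 J0) : LC W J where
  hWn := h.hWn
  hJn := h.hJn
  hne := fun Z hZ => h0.hne Z (h.hJ Z hZ)
  hJW := fun Z hZ z hz hw => h0.hJW Z (h.hJ Z hZ) z hz (h.hW z hw)
  hdis := fun Z hZ Z' hZ' hne => h0.hdis Z (h.hJ Z hZ) Z' (h.hJ Z' hZ') hne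

theorem Inv.del (h : Inv E W0 J0 Ul W J o R) (a : ℕ) : Inv E W0 J0 Ul (rm a W) J o R where
  hW := fun w hw => h.hW w (mem_rm.1 hw).1
  hWn := nodup_rm h.hWn
  hJ := h.hJ
  hJn := h.hJn
  good := h.good
  disW := fun i hi x hx hw => h.disW i hi x hx (mem_rm.1 hw).1
  dis := h.dis
  hR := h.hR
  hU := h.hU
  hUl := h.hUl

theorem Inv.step (h : Inv E W0 J0 Ul W J o R) {Z : List ℕ} (hZ : Z ∈ J) {s : Finset ℕ}
    (hs : Gd E W0 J0 ⟨Z, h.hJ Z hZ⟩ s) (hsW : ∀ x ∈ s, x ∈ W) {W' : List ℕ} (hn : W'.Nodup)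
    (hW' : ∀ w ∈ W', w ∈ W ∧ w ∉ s) :
    Inv E W0 J0 Ul W' (rmZ Z J) (Function.update o ⟨Z, h.hJ Z hZ⟩ s) R := by
  set z : {Z // Z ∈ J0} := ⟨Z, h.hJ Z hZ⟩ with hz
  have hi : ∀ i : {Z // Z ∈ J0}, i.1 ∉ rmZ Z J → i ≠ z → i.1 ∉ J := by
    intro i h1 h2 h3
    exact h1 (mem_rmZ.2 ⟨h3, fun he => h2 (Subtype.ext he)⟩)
  have hRz : ∀ i ∈ R, i ≠ z := fun i hiR he => (h.hR i hiR).1 (by rw [he]; exact hZ)
  have hRb : R.biUnion (Function.update o z s) = R.biUnion o :=
    Finset.biUnion_congr rfl fun i hiR => Function.update_of_ne (hRz i hiR) _ _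
  refine ⟨fun w hw => h.hW w (hW' w hw).1, hn, fun Y hY => h.hJ Y (mem_rmZ.1 hY).1,
    nodup_rmZ h.hJn, ?_, ?_, ?_, ?_, ?_, h.hUl⟩
  · intro i h1
    by_cases e : i = z
    · rw [e, Function.update_self]; exact hs
    · rw [Function.update_of_ne e]; exact h.good i (hi i h1 e)
  · intro i h1 x hx hw
    by_cases e : i = z
    · rw [e, Function.update_self] at hx
      exact (hW' x hw).2 hx
    · rw [Function.update_of_ne e] at hx
      exact h.disW i (hi i h1 e) x hx (hW' x hw).1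
  · intro i j h1 h2 hij
    by_cases e : i = z
    · have f : j ≠ z := fun f => hij (e.trans f.symm)
      rw [e, Function.update_self, Function.update_of_ne f, disjoint_right]
      intro x hx hx'
      exact h.disW j (hi j h2 f) x hx (hsW x hx')
    · by_cases f : j = z
      · rw [f, Function.update_self, Function.update_of_ne e, disjoint_left]
        intro x hx hx'
        exact h.disW i (hi i h1 e) x hx (hsW x hx')
      · rw [Function.update_of_ne e, Function.update_of_ne f]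
        exact h.dis i j (hi i h1 e) (hi j h2 f) hij
  · intro i hiR
    obtain ⟨h1, h2⟩ := h.hR i hiR
    refine ⟨fun h3 => h1 (mem_rmZ.1 h3).1, ?_⟩
    rw [Function.update_of_ne (hRz i hiR)]
    exact h2
  · intro u hu
    rw [hRb] at hu
    exact h.hU u hu

theorem Inv.addR (h : Inv E W0 J0 Ul W J o R) {i : {Z // Z ∈ J0}} (hi : i ∉ R) (hiJ : i.1 ∉ J)
    {a b : ℕ} (hs : SP W0.toFinset (sgJ E J0) i (o i) a b) :
    Inv E W0 J0 (a :: b :: Ul) W J o (insert i R) where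
  hW := h.hW
  hWn := h.hWn
  hJ := h.hJ
  hJn := h.hJn
  good := h.good
  disW := h.disW
  dis := h.dis
  hR := by
    intro j hj
    rcases mem_insert.1 hj with rfl | hj
    · exact ⟨hiJ, a, b, hs⟩
    · exact h.hR j hj
  hU := by
    intro u hu
    rw [biUnion_insert, mem_union] at hu
    rcases hu with hu | hu
    · rw [hs.hs, mem_insert, mem_singleton] at hu
      rcases hu with rfl | rfl <;> simp
    · exact List.mem_cons_of_mem _ (List.mem_cons_of_mem _ (h.hU u hu))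
  hUl := by
    rw [card_insert_of_notMem hi]
    have := h.hUl
    simp only [List.length_cons]
    omega

/-- soundness of the final test -/
theorem Inv.leaf (h : Inv E W0 J0 Ul W J o R) (h0 : LC W0 J0) {t r : ℕ}
    (hC : Ctx W0.toFinset (sgJ E J0) (GG E).Adj (Spl E Zs)) (ht : KF W0.toFinset (Spl E Zs) t)
    (hl : leafB r (2 * (2 * r + 4 * t + 2 * c1 t)) E Zs Ul W J = true) :
    ∃ g : {Z // Z ∈ J0} → Finset ℕ, (∀ i, Gd E W0 J0 i (g i)) ∧
      ∀ i j, i ≠ j → Disjoint (g i) (g j) := by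
  have hlc := h.lc h0
  -- combination of two solutions
  have comb : ∀ o1 : {Z // Z ∈ J} → Finset ℕ, (∀ i, o1 i ⊆ W.toFinset) →
      (∀ i j, i ≠ j → Disjoint (o1 i) (o1 j)) → ∀ i j : {Z // Z ∈ J0}, i ≠ j →
      Disjoint (if h : i.1 ∈ J then o1 ⟨i.1, h⟩ else o i)
        (if h : j.1 ∈ J then o1 ⟨j.1, h⟩ else o j) := by
    intro o1 h1 h2 i j hij
    by_cases hi : i.1 ∈ J <;> by_cases hj : j.1 ∈ J
    · rw [dif_pos hi, dif_pos hj]
      exact h2 _ _ fun he => hij (Subtype.ext (Subtype.mk.inj he))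
    · rw [dif_pos hi, dif_neg hj, disjoint_left]
      intro x hx hx'
      exact h.disW j hj x hx' (List.mem_toFinset.1 (h1 _ hx))
    · rw [dif_neg hi, dif_pos hj, disjoint_left]
      intro x hx hx'
      exact h.disW i hi x hx (List.mem_toFinset.1 (h1 _ hx'))
    · rw [dif_neg hi, dif_neg hj]
      exact h.dis i j hi hj hij
  have hWW : W.toFinset ⊆ W0.toFinset := fun w hw =>
    List.mem_toFinset.2 (h.hW w (List.mem_toFinset.1 hw))
  unfold leafB at hl
  rw [Bool.or_eq_true, Bool.and_eq_true, Bool.and_eq_true, decide_eq_true_eq,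
    List.all_eq_true] at hl
  rcases hl with hl | ⟨hl1, hl2, hl3⟩
  · rw [sgl_iff hlc] at hl
    obtain ⟨o1, h1, h2⟩ := hl
    have h1' : ∀ i, o1 i ⊆ W.toFinset := by
      intro i
      obtain ⟨w, hw, _, e⟩ := h1 i
      rw [e]
      exact singleton_subset_iff.2 (List.mem_toFinset.2 hw)
    refine ⟨fun i => if h : i.1 ∈ J then o1 ⟨i.1, h⟩ else o i, fun i => ?_,
      comb o1 h1' h2⟩
    by_cases hi : i.1 ∈ J
    · dsimp only
      rw [dif_pos hi]
      obtain ⟨w, hw, hz, e⟩ := h1 ⟨i.1, hi⟩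
      rw [e]
      exact Or.inl ⟨w, hWW (List.mem_toFinset.2 hw), sg3_zero.2 hz, rfl⟩
    · dsimp only
      rw [dif_neg hi]
      exact h.good i hi
  · rw [coreB_iff hlc] at hl3
    obtain ⟨o1, h1, h2⟩ := hl3
    have h1' : ∀ i, o1 i ⊆ W.toFinset := fun i => opt_sub (h1 i)
    set o2 : {Z // Z ∈ J0} → Finset ℕ := fun i => if h : i.1 ∈ J then o1 ⟨i.1, h⟩ else o i with ho2
    have e1 : ∀ (i : {Z // Z ∈ J0}) (hi : i.1 ∈ J), o2 i = o1 ⟨i.1, hi⟩ := fun i hi => by
      rw [ho2]; exact dif_pos hi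
    have e2 : ∀ i : {Z // Z ∈ J0}, i.1 ∉ J → o2 i = o i := fun i hi => by
      rw [ho2]; exact dif_neg hi
    have hrel : Rel W0.toFinset (sgJ E J0) o2 := by
      refine ⟨fun i => ?_, comb o1 h1' h2⟩
      by_cases hi : i.1 ∈ J
      · rw [e1 i hi]
        rcases h1 ⟨i.1, hi⟩ with ⟨c, hc, h3, h4⟩ | ⟨a, ha, b, hb, h3, h4, h5⟩
        · exact Or.inl ⟨c, hWW hc, h3, h4⟩
        · exact Or.inr ⟨a, hWW ha, b, hWW hb, h3, h4, h5⟩
      · rw [e2 i hi]; exact (h.good i hi).isOpt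
    have hRb : R.biUnion o2 = R.biUnion o :=
      Finset.biUnion_congr rfl fun i hi => e2 i (h.hR i hi).1
    refine hC.sound ht r hrel (univ.filter fun i => i.1 ∉ J) R W.toFinset ?_ ?_ ?_ ?_ ?_ ?_
    · intro i hi
      rw [e2 i (mem_filter.1 hi).2]
      exact h.good i (mem_filter.1 hi).2
    · intro i hi
      exact mem_filter.2 ⟨mem_univ _, (h.hR i hi).1⟩
    · intro j hj
      rw [e2 j (h.hR j hj).1]
      exact (h.hR j hj).2
    · intro i hi
      have hi' : i.1 ∈ J := by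
        by_contra hn
        exact hi (mem_filter.2 ⟨mem_univ _, hn⟩)
      rw [e1 i hi']
      exact h1' _
    · intro x hx
      rw [hRb]
      have h3 := hl2 x (List.mem_toFinset.1 hx)
      rw [decide_eq_true_eq] at h3
      refine le_trans (le_trans (card_le_card ?_) (List.toFinset_card_le _)) h3
      intro u hu
      rw [mem_filter] at hu
      rw [List.mem_toFinset, List.mem_filter]
      exact ⟨h.hU u hu.1, hu.2⟩
    · have := h.hUl
      omega

/-- soundness of the search -/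
theorem rec_sound (h0 : LC W0 J0) {t r : ℕ}
    (hC : Ctx W0.toFinset (sgJ E J0) (GG E).Adj (Spl E Zs)) (ht : KF W0.toFinset (Spl E Zs) t) :
    ∀ (m : ℕ) (Ul W : List ℕ) (J : List (List ℕ)) (o : {Z // Z ∈ J0} → Finset ℕ)
      (R : Finset {Z // Z ∈ J0}), Inv E W0 J0 Ul W J o R →
      recB r (2 * (2 * r + 4 * t + 2 * c1 t)) m ((E, Zs), (Ul, (W, J))) = true →
      ∃ g : {Z // Z ∈ J0} → Finset ℕ, (∀ i, Gd E W0 J0 i (g i)) ∧
        ∀ i j, i ≠ j → Disjoint (g i) (g j) := by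
  intro m
  induction m with
  | zero =>
    intro Ul W J o R h hr
    exact h.leaf h0 hC ht hr
  | succ m ih =>
    intro Ul W J o R h hr
    unfold recB at hr
    dsimp only at hr
    rw [Bool.or_eq_true, Bool.or_eq_true, Bool.or_eq_true] at hr
    simp only [List.any_eq_true, Bool.and_eq_true] at hr
    rcases hr with hr | ⟨a, ha, hr⟩ | ⟨Z, hZ, a, ha, hz, hr⟩ | ⟨Z, hZ, a, ha, b, hb, hp, hr⟩
    · exact h.leaf h0 hC ht hr
    · exact ih _ _ _ _ _ (h.del a) hr
    · refine ih _ _ _ _ _ (h.step hZ (s := {a}) ?_ ?_ (nodup_rm h.hWn) ?_) hr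
      · exact Or.inl ⟨a, List.mem_toFinset.2 (h.hW a ha), sg3_zero.2 hz, rfl⟩
      · intro x hx
        rw [mem_singleton.1 hx]; exact ha
      · intro w hw
        rw [mem_rm] at hw
        exact ⟨hw.1, fun hx => hw.2 (mem_singleton.1 hx)⟩
    · obtain ⟨p1, p2, p3⟩ := pr_iff.1 hp
      have hZ0 := h.hJ Z hZ
      have haW := List.mem_toFinset.2 (h.hW a ha)
      have hbW := List.mem_toFinset.2 (h.hW b hb)
      have hst := h.step hZ (s := {a, b}) (W' := rm b (rm a W))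
        (Or.inr ⟨a, haW, b, hbW, p1, p2, p3, rfl⟩) (by
          intro x hx
          rw [mem_insert, mem_singleton] at hx
          rcases hx with rfl | rfl
          · exact ha
          · exact hb) (nodup_rm (nodup_rm h.hWn)) (by
          intro w hw
          rw [mem_rm, mem_rm] at hw
          refine ⟨hw.1.1, fun hx => ?_⟩
          rw [mem_insert, mem_singleton] at hx
          rcases hx with hx | hx
          · exact hw.1.2 hx
          · exact hw.2 hx)
      refine ih _ _ _ _ _ (hst.addR (i := ⟨Z, hZ0⟩) ?_ ?_ ?_) hr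
      · intro hR
        exact (h.hR _ hR).1 hZ
      · intro hm
        exact (mem_rmZ.1 hm).2 rfl
      · rw [Function.update_self]
        exact ⟨haW, hbW, p1, p2, rfl⟩

end

end Pool.Agent.Helper878_bs
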