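import Pool.Agent.Helper878_mm.MM2

/-!
# Repairing split pairs

A solution of the relaxed problem (where nonadjacent pairs are allowed) is repaired: a nonadjacent
pair is recombined with one or two pairs of other indices.
-/

set_option autoImplicit false
set_option linter.unusedSectionVars false

namespace Pool.Agent.Helper878_bs

open Finset Pool.Agent.Helper878_mm

variable {α ι : Type} [DecidableEq α] [DecidableEq ι]

/-- a single vertex seeing both classes, or an adjacent pair -/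
def Good (W : Finset α) (σ : ι → α → Fin 3) (A : α → α → Prop) (i : ι) (s : Finset α) : Prop :=
  (∃ c ∈ W, σ i c = 0 ∧ s = {c}) ∨ ∃ a ∈ W, ∃ b ∈ W, σ i a = 1 ∧ σ i b = 2 ∧ A a b ∧ s = {a, b}

/-- there is no `t` times `t` biclique -/
def KF (W : Finset α) (Sp : α → α → Prop) (t : ℕ) : Prop :=
  ∀ X Y : Finset α, X ⊆ W → Y ⊆ W → X.card = t → Y.card = t → ∃ x ∈ X, ∃ y ∈ Y, ¬ Sp x y

/-- the setting -/
structure Ctx (W : Finset α) (σ : ι → α → Fin 3) (A Sp : α → α → Prop) : Prop where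
  sym : ∀ a b, Sp a b → Sp b a
  adj : ∀ i, ∀ a ∈ W, ∀ b ∈ W, σ i a = 1 → σ i b = 2 → ¬ Sp a b → A a b

section
variable {W : Finset α} {σ : ι → α → Fin 3} {A Sp : α → α → Prop}

theorem Good.isOpt {i : ι} {s : Finset α} (h : Good W σ A i s) : IsOpt W σ i s := by
  rcases h with ⟨c, hc, h1, h2⟩ | ⟨a, ha, b, hb, h1, h2, _, h3⟩
  · exact Or.inl ⟨c, hc, h1, h2⟩
  · exact Or.inr ⟨a, ha, b, hb, h1, h2, h3⟩

theorem opt_sub {i : ι} {s : Finset α} (h : IsOpt W σ i s) : s ⊆ W := by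
  rcases h with ⟨c, hc, _, h2⟩ | ⟨a, ha, b, hb, _, _, h2⟩
  · rw [h2]; exact singleton_subset_iff.2 hc
  · rw [h2]; exact insert_subset ha (singleton_subset_iff.2 hb)

theorem Ctx.gd (h : Ctx W σ A Sp) {i : ι} {x y : α} (hx : x ∈ W) (hy : y ∈ W) (h1 : σ i x ≠ 2)
    (h2 : σ i y ≠ 1) (h3 : ¬ Sp x y) : ∃ p ⊆ ({x, y} : Finset α), Good W σ A i p := by
  rcases fin3 (σ i x) with e | e | e
  · exact ⟨{x}, by simp, Or.inl ⟨x, hx, e, rfl⟩⟩
  · rcases fin3 (σ i y) with f | f | f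
    · exact ⟨{y}, by simp, Or.inl ⟨y, hy, f, rfl⟩⟩
    · exact absurd f h2
    · exact ⟨{x, y}, Subset.refl _, Or.inr ⟨x, hx, y, hy, e, f, h.adj i x hx y hy e f h3, rfl⟩⟩
  · exact absurd e h1

/-- a strict pair -/
structure SP (W : Finset α) (σ : ι → α → Fin 3) (i : ι) (s : Finset α) (a b : α) : Prop where
  ha : a ∈ W
  hb : b ∈ W
  h1 : σ i a = 1
  h2 : σ i b = 2
  hs : s = {a, b}

theorem SP.ne {i : ι} {s : Finset α} {a b : α} (h : SP W σ i s a b) : a ≠ b := by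
  intro he
  have h1 := h.h1
  rw [he, h.h2] at h1
  exact absurd h1 (by decide)

theorem SP.card {i : ι} {s : Finset α} {a b : α} (h : SP W σ i s a b) : s.card = 2 := by
  rw [h.hs, card_pair h.ne]

theorem SP.isOpt {i : ι} {s : Finset α} {a b : α} (h : SP W σ i s a b) : IsOpt W σ i s :=
  Or.inr ⟨a, h.ha, b, h.hb, h.h1, h.h2, h.hs⟩

theorem SP.ma {i : ι} {s : Finset α} {a b : α} (h : SP W σ i s a b) : a ∈ s := by rw [h.hs]; simp

theorem SP.mb {i : ι} {s : Finset α} {a b : α} (h : SP W σ i s a b) : b ∈ s := by rw [h.hs]; simp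

/-- an option which is not good is a strict pair with a split -/
theorem Ctx.bad (h : Ctx W σ A Sp) {i : ι} {s : Finset α} (ho : IsOpt W σ i s)
    (hg : ¬ Good W σ A i s) : ∃ a b, SP W σ i s a b ∧ Sp a b := by
  rcases ho with ⟨c, hc, h1, h2⟩ | ⟨a, ha, b, hb, h1, h2, h3⟩
  · exact absurd (Or.inl ⟨c, hc, h1, h2⟩) hg
  · refine ⟨a, b, ⟨ha, hb, h1, h2, h3⟩, ?_⟩
    by_contra hn
    exact hg (Or.inr ⟨a, ha, b, hb, h1, h2, h.adj i a ha b hb h1 h2 hn, h3⟩)

/-- Recombining two pairs works unless the types are as in one of two cases. -/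
theorem Ctx.two (h : Ctx W σ A Sp) {i j : ι} {s u : Finset α} {a b c d : α}
    (hi : SP W σ i s a b) (hj : SP W σ j u c d) (hd : Disjoint s u)
    (hx : ∀ x ∈ s, ∀ y ∈ u, ¬ Sp x y) :
    (∃ p q, p ⊆ s ∪ u ∧ q ⊆ s ∪ u ∧ Disjoint p q ∧ Good W σ A i p ∧ Good W σ A j q) ∨
    (σ i c = 1 ∧ σ i d = 2 ∧ σ j a = 2 ∧ σ j b = 1) ∨
    (σ i c = 2 ∧ σ i d = 1 ∧ σ j a = 1 ∧ σ j b = 2) := by
  have hac : a ≠ c := fun he => disjoint_left.1 hd hi.ma (he ▸ hj.ma)
  have had : a ≠ d := fun he => disjoint_left.1 hd hi.ma (he ▸ hj.mb)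
  have hbc : b ≠ c := fun he => disjoint_left.1 hd hi.mb (he ▸ hj.ma)
  have hbd : b ≠ d := fun he => disjoint_left.1 hd hi.mb (he ▸ hj.mb)
  have hab := hi.ne
  have hcd := hj.ne
  have xac := hx a hi.ma c hj.ma
  have xad := hx a hi.ma d hj.mb
  have xbc := hx b hi.mb c hj.ma
  have xbd := hx b hi.mb d hj.mb
  have hsub : ∀ x y : α, x ∈ s ∪ u → y ∈ s ∪ u → ∀ p ⊆ ({x, y} : Finset α), p ⊆ s ∪ u :=
    fun x y h1 h2 p hp => hp.trans (insert_subset h1 (singleton_subset_iff.2 h2))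
  have ma : a ∈ s ∪ u := mem_union_left _ hi.ma
  have mb : b ∈ s ∪ u := mem_union_left _ hi.mb
  have mc : c ∈ s ∪ u := mem_union_right _ hj.ma
  have md : d ∈ s ∪ u := mem_union_right _ hj.mb
  have mk : ∀ x y z w : α, x ∈ s ∪ u → y ∈ s ∪ u → z ∈ s ∪ u → w ∈ s ∪ u →
      x ≠ z → x ≠ w → y ≠ z → y ≠ w → (∃ p ⊆ ({x, y} : Finset α), Good W σ A i p) →
      (∃ q ⊆ ({z, w} : Finset α), Good W σ A j q) →
      ∃ p q, p ⊆ s ∪ u ∧ q ⊆ s ∪ u ∧ Disjoint p q ∧ Good W σ A i p ∧ Good W σ A j q := by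
    rintro x y z w mx my mz mw n1 n2 n3 n4 ⟨p, hp, gp⟩ ⟨q, hq, gq⟩
    refine ⟨p, q, hsub x y mx my p hp, hsub z w mz mw q hq, ?_, gp, gq⟩
    refine disjoint_of_subset_left hp (disjoint_of_subset_right hq ?_)
    rw [disjoint_left]
    intro v hv hv'
    rw [mem_insert, mem_singleton] at hv hv'
    rcases hv with rfl | rfl <;> rcases hv' with e | e
    · exact n1 e
    · exact n2 e
    · exact n3 e
    · exact n4 e
  have i1 := hi.h1
  have i2 := hi.h2
  have j1 := hj.h1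
  have j2 := hj.h2
  have ne12 : (1 : Fin 3) ≠ 2 := by decide
  have ne21 : (2 : Fin 3) ≠ 1 := by decide
  by_cases s1 : σ i d ≠ 1 ∧ σ j b ≠ 1
  · left
    exact mk a d c b ma md mc mb hac hab hcd.symm hbd.symm
      (h.gd hi.ha hj.hb (by rw [i1]; exact ne12) s1.1 xad)
      (h.gd hj.ha hi.hb (by rw [j1]; exact ne12) s1.2 (fun e => xbc (h.sym _ _ e)))
  by_cases s2 : σ i c ≠ 1 ∧ σ j b ≠ 2
  · left
    exact mk a c b d ma mc mb md hab had hbc.symm hcd
      (h.gd hi.ha hj.ha (by rw [i1]; exact ne12) s2.1 xac)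
      (h.gd hi.hb hj.hb s2.2 (by rw [j2]; exact ne21) xbd)
  by_cases s3 : σ i c ≠ 2 ∧ σ j a ≠ 2
  · left
    exact mk c b a d mc mb ma md hac.symm hcd hab.symm hbd
      (h.gd hj.ha hi.hb s3.1 (by rw [i2]; exact ne21) (fun e => xbc (h.sym _ _ e)))
      (h.gd hi.ha hj.hb s3.2 (by rw [j2]; exact ne21) xad)
  by_cases s4 : σ i d ≠ 2 ∧ σ j a ≠ 1
  · left
    exact mk d b c a md mb mc ma hcd.symm had.symm hbc hab.symm
      (h.gd hj.hb hi.hb s4.1 (by rw [i2]; exact ne21) (fun e => xbd (h.sym _ _ e)))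
      (h.gd hj.ha hi.ha (by rw [j1]; exact ne12) s4.2 (fun e => xac (h.sym _ _ e)))
  right
  have t1 : σ i d = 1 ∨ σ j b = 1 := by
    by_contra hn
    exact s1 ⟨fun e => hn (Or.inl e), fun e => hn (Or.inr e)⟩
  have t2 : σ i c = 1 ∨ σ j b = 2 := by
    by_contra hn
    exact s2 ⟨fun e => hn (Or.inl e), fun e => hn (Or.inr e)⟩
  have t3 : σ i c = 2 ∨ σ j a = 2 := by
    by_contra hn
    exact s3 ⟨fun e => hn (Or.inl e), fun e => hn (Or.inr e)⟩
  have t4 : σ i d = 2 ∨ σ j a = 1 := by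
    by_contra hn
    exact s4 ⟨fun e => hn (Or.inl e), fun e => hn (Or.inr e)⟩
  rcases t1 with e | e
  · right
    have f4 := t4.resolve_left (fun e' => ne12 (e.symm.trans e'))
    have f3 := t3.resolve_right (fun e' => ne12 (f4.symm.trans e'))
    have f2 := t2.resolve_left (fun e' => ne21 (f3.symm.trans e'))
    exact ⟨f3, e, f4, f2⟩
  · left
    have f2 := t2.resolve_right (fun e' => ne12 (e.symm.trans e'))
    have f3 := t3.resolve_left (fun e' => ne12 (f2.symm.trans e'))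
    have f4 := t4.resolve_right (fun e' => ne21 (f3.symm.trans e'))
    exact ⟨f2, f4, f3, e⟩

/-- Two pairs of the same bad type repair a third one. -/
theorem Ctx.three (h : Ctx W σ A Sp) {i j k : ι} {s u v : Finset α} {a b c d c' d' : α}
    (hi : SP W σ i s a b) (hj : SP W σ j u c d) (hk : SP W σ k v c' d')
    (hij : Disjoint s u) (hik : Disjoint s v) (hjk : Disjoint u v)
    (xj : ∀ x ∈ s, ∀ y ∈ u, ¬ Sp x y) (xk : ∀ x ∈ s, ∀ y ∈ v, ¬ Sp x y) (hn : ¬ Sp c d')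
    (hb : (σ i c = 1 ∧ σ j b = 1 ∧ σ i d' = 2 ∧ σ k a = 2) ∨
      (σ i c = 2 ∧ σ j a = 1 ∧ σ i d' = 1 ∧ σ k b = 2)) :
    ∃ p q r, p ⊆ s ∪ u ∪ v ∧ q ⊆ s ∪ u ∪ v ∧ r ⊆ s ∪ u ∪ v ∧ Disjoint p q ∧ Disjoint p r ∧
      Disjoint q r ∧ Good W σ A i p ∧ Good W σ A j q ∧ Good W σ A k r := by
  have ma : a ∈ s ∪ u ∪ v := mem_union_left _ (mem_union_left _ hi.ma)
  have mb : b ∈ s ∪ u ∪ v := mem_union_left _ (mem_union_left _ hi.mb)
  have mc : c ∈ s ∪ u ∪ v := mem_union_left _ (mem_union_right _ hj.ma)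
  have md : d ∈ s ∪ u ∪ v := mem_union_left _ (mem_union_right _ hj.mb)
  have mc' : c' ∈ s ∪ u ∪ v := mem_union_right _ hk.ma
  have md' : d' ∈ s ∪ u ∪ v := mem_union_right _ hk.mb
  have hsub : ∀ x y : α, x ∈ s ∪ u ∪ v → y ∈ s ∪ u ∪ v → ({x, y} : Finset α) ⊆ s ∪ u ∪ v :=
    fun x y h1 h2 => insert_subset h1 (singleton_subset_iff.2 h2)
  have dis : ∀ x y z w : α, x ≠ z → x ≠ w → y ≠ z → y ≠ w →
      Disjoint ({x, y} : Finset α) {z, w} := by
    intro x y z w n1 n2 n3 n4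
    rw [disjoint_left]
    intro v hv hv'
    rw [mem_insert, mem_singleton] at hv hv'
    rcases hv with rfl | rfl <;> rcases hv' with e | e
    · exact n1 e
    · exact n2 e
    · exact n3 e
    · exact n4 e
  have n1 : a ≠ b := hi.ne
  have n2 : c ≠ d := hj.ne
  have n3 : c' ≠ d' := hk.ne
  have n4 : a ≠ c := fun he => disjoint_left.1 hij hi.ma (he ▸ hj.ma)
  have n5 : a ≠ d := fun he => disjoint_left.1 hij hi.ma (he ▸ hj.mb)
  have n6 : b ≠ c := fun he => disjoint_left.1 hij hi.mb (he ▸ hj.ma)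
  have n7 : b ≠ d := fun he => disjoint_left.1 hij hi.mb (he ▸ hj.mb)
  have n8 : a ≠ c' := fun he => disjoint_left.1 hik hi.ma (he ▸ hk.ma)
  have n9 : a ≠ d' := fun he => disjoint_left.1 hik hi.ma (he ▸ hk.mb)
  have n10 : b ≠ c' := fun he => disjoint_left.1 hik hi.mb (he ▸ hk.ma)
  have n11 : b ≠ d' := fun he => disjoint_left.1 hik hi.mb (he ▸ hk.mb)
  have n12 : c ≠ c' := fun he => disjoint_left.1 hjk hj.ma (he ▸ hk.ma)
  have n13 : c ≠ d' := fun he => disjoint_left.1 hjk hj.ma (he ▸ hk.mb)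
  have n14 : d ≠ c' := fun he => disjoint_left.1 hjk hj.mb (he ▸ hk.ma)
  have n15 : d ≠ d' := fun he => disjoint_left.1 hjk hj.mb (he ▸ hk.mb)
  have good : ∀ (l : ι) (x y : α), x ∈ W → y ∈ W → σ l x = 1 → σ l y = 2 → ¬ Sp x y →
      Good W σ A l {x, y} := fun l x y hx hy h1 h2 h3 =>
    Or.inr ⟨x, hx, y, hy, h1, h2, h.adj l x hx y hy h1 h2 h3, rfl⟩
  have f : ∀ x y, ¬ Sp x y → ¬ Sp y x := fun x y h1 h2 => h1 (h.sym _ _ h2)
  rcases hb with ⟨h1, h2, h3, h4⟩ | ⟨h1, h2, h3, h4⟩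
  · exact ⟨{c, d'}, {b, d}, {c', a}, hsub _ _ mc md', hsub _ _ mb md, hsub _ _ mc' ma,
      dis _ _ _ _ n6.symm n2 n11.symm n15.symm, dis _ _ _ _ n12 n4.symm n3.symm n9.symm,
      dis _ _ _ _ n10 n1.symm n14 n5.symm,
      good i _ _ hj.ha hk.hb h1 h3 hn,
      good j _ _ hi.hb hj.hb h2 hj.h2 (xj b hi.mb d hj.mb),
      good k _ _ hk.ha hi.ha hk.h1 h4 (f _ _ (xk a hi.ma c' hk.ma))⟩
  · exact ⟨{d', c}, {a, d}, {c', b}, hsub _ _ md' mc, hsub _ _ ma md, hsub _ _ mc' mb,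
      dis _ _ _ _ n9.symm n15.symm n4.symm n2, dis _ _ _ _ n3.symm n11.symm n12 n6.symm,
      dis _ _ _ _ n8 n1 n14 n7.symm,
      good i _ _ hk.hb hj.ha h3 h1 (f _ _ hn),
      good j _ _ hi.ha hj.hb h2 hj.h2 (xj a hi.ma d hj.mb),
      good k _ _ hk.ha hi.hb hk.h1 h4 (f _ _ (xk b hi.mb c' hk.ma))⟩

/-- changing a solution on the indices of `K` -/
theorem patch {o g : ι → Finset α} (hd : ∀ i j, i ≠ j → Disjoint (o i) (o j)) (K : Finset ι)
    (hg : ∀ k ∈ K, g k ⊆ K.biUnion o) (hg' : ∀ k ∈ K, ∀ l ∈ K, k ≠ l → Disjoint (g k) (g l)) :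
    ∀ k l, k ≠ l → Disjoint (if k ∈ K then g k else o k) (if l ∈ K then g l else o l) := by
  have key : ∀ k ∈ K, ∀ l ∉ K, Disjoint (g k) (o l) := by
    intro k hk l hl
    refine disjoint_of_subset_left (hg k hk) ?_
    rw [disjoint_biUnion_left]
    intro m hm
    exact hd m l (fun he => hl (he ▸ hm))
  intro k l hkl
  by_cases hk : k ∈ K <;> by_cases hl : l ∈ K
  · rw [if_pos hk, if_pos hl]; exact hg' k hk l hl hkl
  · rw [if_pos hk, if_neg hl]; exact key k hk l hl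
  · rw [if_neg hk, if_pos hl]; exact (key l hl k hk).symm
  · rw [if_neg hk, if_neg hl]; exact hd k l hkl

/-- among many pairs there are two without a split -/
theorem exists_pair {t : ℕ} (ht : KF W Sp t) {o : ι → Finset α}
    (hd : ∀ i j, i ≠ j → Disjoint (o i) (o j)) (B : Finset ι) (c d : ι → α)
    (hB : ∀ j ∈ B, SP W σ j (o j) (c j) (d j)) (hc : 2 * t ≤ B.card) :
    ∃ j ∈ B, ∃ k ∈ B, j ≠ k ∧ ¬ Sp (c j) (d k) := by
  obtain ⟨B1, hB1, c1⟩ := exists_subset_card_eq (show t ≤ B.card by omega)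
  obtain ⟨B2, hB2, c2⟩ := exists_subset_card_eq (show t ≤ (B \ B1).card by
    rw [card_sdiff_of_subset hB1]; omega)
  have inj1 : Set.InjOn c B1 := by
    intro j hj k hk he
    by_contra hne
    have h1 := hB j (hB1 (mem_coe.1 hj))
    have h2 := hB k (hB1 (mem_coe.1 hk))
    exact disjoint_left.1 (hd j k hne) h1.ma (he ▸ h2.ma)
  have inj2 : Set.InjOn d B2 := by
    intro j hj k hk he
    by_contra hne
    have h1 := hB j (sdiff_subset (hB2 (mem_coe.1 hj)))
    have h2 := hB k (sdiff_subset (hB2 (mem_coe.1 hk)))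
    exact disjoint_left.1 (hd j k hne) h1.mb (he ▸ h2.mb)
  obtain ⟨x, hx, y, hy, hxy⟩ := ht (B1.image c) (B2.image d)
    (fun x hx => by
      obtain ⟨j, hj, rfl⟩ := mem_image.1 hx
      exact (hB j (hB1 hj)).ha)
    (fun x hx => by
      obtain ⟨j, hj, rfl⟩ := mem_image.1 hx
      exact (hB j (sdiff_subset (hB2 hj))).hb)
    (by rw [card_image_of_injOn inj1, c1]) (by rw [card_image_of_injOn inj2, c2])
  obtain ⟨j, hj, rfl⟩ := mem_image.1 hx
  obtain ⟨k, hk, rfl⟩ := mem_image.1 hy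
  have hk' := mem_sdiff.1 (hB2 hk)
  exact ⟨j, hB1 hj, k, hk'.1, fun he => hk'.2 (he ▸ hj), hxy⟩

/-- The repairing step. -/
theorem Ctx.fix (h : Ctx W σ A Sp) {t : ℕ} (ht : KF W Sp t) {o : ι → Finset α}
    (hd : ∀ i j, i ≠ j → Disjoint (o i) (o j)) {i : ι} {a b : α} (hi : SP W σ i (o i) a b)
    (S : Finset ι) (hiS : i ∉ S) (c d : ι → α) (hS : ∀ j ∈ S, SP W σ j (o j) (c j) (d j))
    (hx : ∀ j ∈ S, ∀ x ∈ o i, ∀ y ∈ o j, ¬ Sp x y) (hc : 4 * t ≤ S.card) :
    ∃ (J : Finset ι) (o' : ι → Finset α), J ⊆ S ∧ J.card ≤ 2 ∧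
      (∀ k, k ∉ insert i J → o' k = o k) ∧
      (∀ k ∈ insert i J, Good W σ A k (o' k) ∧ o' k ⊆ (insert i J).biUnion o) ∧
      ∀ k l, k ≠ l → Disjoint (o' k) (o' l) := by
  classical
  by_cases hex : ∃ j ∈ S, ∃ p q, p ⊆ o i ∪ o j ∧ q ⊆ o i ∪ o j ∧ Disjoint p q ∧
      Good W σ A i p ∧ Good W σ A j q
  · obtain ⟨j, hj, p, q, hp, hq, hpq, gp, gq⟩ := hex
    have hij : i ≠ j := fun he => hiS (he ▸ hj)
    have hb : (insert i {j} : Finset ι).biUnion o = o i ∪ o j := by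
      rw [biUnion_insert, singleton_biUnion]
    set g : ι → Finset α := fun k => if k = i then p else q with hg
    have gi : g i = p := by rw [hg]; exact if_pos rfl
    have gj : g j = q := by rw [hg]; exact if_neg hij.symm
    refine ⟨{j}, fun k => if k ∈ (insert i {j} : Finset ι) then g k else o k,
      singleton_subset_iff.2 hj, by simp, fun k hk => if_neg hk, ?_, ?_⟩
    · intro k hk
      dsimp only
      rw [if_pos hk, hb]
      rcases mem_insert.1 hk with rfl | hk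
      · rw [gi]; exact ⟨gp, hp⟩
      · rw [mem_singleton.1 hk, gj]; exact ⟨gq, hq⟩
    · refine patch hd _ ?_ ?_
      · intro k hk
        rw [hb]
        rcases mem_insert.1 hk with rfl | hk
        · rw [gi]; exact hp
        · rw [mem_singleton.1 hk, gj]; exact hq
      · intro k hk l hl hkl
        rw [mem_insert, mem_singleton] at hk hl
        rcases hk with rfl | rfl <;> rcases hl with rfl | rfl
        · exact absurd rfl hkl
        · rw [gi, gj]; exact hpq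
        · rw [gi, gj]; exact hpq.symm
        · exact absurd rfl hkl
  · have hall : ∀ j ∈ S, (σ i (c j) = 1 ∧ σ i (d j) = 2 ∧ σ j a = 2 ∧ σ j b = 1) ∨
        (σ i (c j) = 2 ∧ σ i (d j) = 1 ∧ σ j a = 1 ∧ σ j b = 2) := by
      intro j hj
      have hij : i ≠ j := fun he => hiS (he ▸ hj)
      rcases h.two hi (hS j hj) (hd i j hij) (hx j hj) with ⟨p, q, h1⟩ | h1
      · exact absurd ⟨j, hj, p, q, h1⟩ hex
      · exact h1
    -- two indices of the same type
    obtain ⟨j, hj, k, hk, hjk, hn, hty⟩ : ∃ j ∈ S, ∃ k ∈ S, j ≠ k ∧ ¬ Sp (c j) (d k) ∧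
        ((σ i (c j) = 1 ∧ σ j b = 1 ∧ σ i (d k) = 2 ∧ σ k a = 2) ∨
        (σ i (c j) = 2 ∧ σ j a = 1 ∧ σ i (d k) = 1 ∧ σ k b = 2)) := by
      have hcard := card_filter_add_card_filter_not (s := S) (fun j => σ i (c j) = 1)
      rcases Nat.lt_or_ge (S.filter fun j => σ i (c j) = 1).card (2 * t) with h1 | h1
      · obtain ⟨j, hj, k, hk, hjk, hn⟩ := exists_pair ht hd
          (S.filter fun j => ¬ σ i (c j) = 1) c d
          (fun j hj => hS j (mem_filter.1 hj).1) (by omega)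
        rw [mem_filter] at hj hk
        obtain ⟨e1, e2, e3, e4⟩ := (hall j hj.1).resolve_left (fun e => hj.2 e.1)
        obtain ⟨f1, f2, f3, f4⟩ := (hall k hk.1).resolve_left (fun e => hk.2 e.1)
        exact ⟨j, hj.1, k, hk.1, hjk, hn, Or.inr ⟨e1, e3, f2, f4⟩⟩
      · obtain ⟨j, hj, k, hk, hjk, hn⟩ := exists_pair ht hd
          (S.filter fun j => σ i (c j) = 1) c d
          (fun j hj => hS j (mem_filter.1 hj).1) h1
        rw [mem_filter] at hj hk
        have hne12 : (1 : Fin 3) ≠ 2 := by decide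
        obtain ⟨e1, e2, e3, e4⟩ := (hall j hj.1).resolve_right
          (fun e => hne12 (hj.2.symm.trans e.1))
        obtain ⟨f1, f2, f3, f4⟩ := (hall k hk.1).resolve_right
          (fun e => hne12 (hk.2.symm.trans e.1))
        exact ⟨j, hj.1, k, hk.1, hjk, hn, Or.inl ⟨e1, e4, f2, f3⟩⟩
    have hij : i ≠ j := fun he => hiS (he ▸ hj)
    have hik : i ≠ k := fun he => hiS (he ▸ hk)
    obtain ⟨p, q, r, hp, hq, hr, hpq, hpr, hqr, gp, gq, gr⟩ := h.three hi (hS j hj) (hS k hk)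
      (hd i j hij) (hd i k hik) (hd j k hjk) (hx j hj) (hx k hk) hn hty
    have hb : (insert i {j, k} : Finset ι).biUnion o = o i ∪ o j ∪ o k := by
      rw [biUnion_insert, biUnion_insert, singleton_biUnion, union_assoc]
    set g : ι → Finset α := fun l => if l = i then p else if l = j then q else r with hg
    have gi : g i = p := by rw [hg]; exact if_pos rfl
    have gj : g j = q := by rw [hg]; dsimp only; rw [if_neg hij.symm, if_pos rfl]
    have gk : g k = r := by rw [hg]; dsimp only; rw [if_neg hik.symm, if_neg hjk.symm]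
    refine ⟨{j, k}, fun l => if l ∈ (insert i {j, k} : Finset ι) then g l else o l,
      insert_subset hj (singleton_subset_iff.2 hk), card_le_two, fun l hl => if_neg hl, ?_, ?_⟩
    · intro l hl
      dsimp only
      rw [if_pos hl, hb]
      rw [mem_insert, mem_insert, mem_singleton] at hl
      rcases hl with rfl | rfl | rfl
      · rw [gi]; exact ⟨gp, hp⟩
      · rw [gj]; exact ⟨gq, hq⟩
      · rw [gk]; exact ⟨gr, hr⟩
    · refine patch hd _ ?_ ?_
      · intro l hl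
        rw [hb]
        rw [mem_insert, mem_insert, mem_singleton] at hl
        rcases hl with rfl | rfl | rfl
        · rw [gi]; exact hp
        · rw [gj]; exact hq
        · rw [gk]; exact hr
      · intro l hl m hm hlm
        rw [mem_insert, mem_insert, mem_singleton] at hl hm
        rcases hl with rfl | rfl | rfl <;> rcases hm with rfl | rfl | rfl
        · exact absurd rfl hlm
        · rw [gi, gj]; exact hpq
        · rw [gi, gk]; exact hpr
        · rw [gi, gj]; exact hpq.symm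
        · exact absurd rfl hlm
        · rw [gj, gk]; exact hqr
        · rw [gi, gk]; exact hpr.symm
        · rw [gj, gk]; exact hqr.symm
        · exact absurd rfl hlm

end

end Pool.Agent.Helper878_bs
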