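import Pool.Agent.Helper878_bs.Bic

/-!
# The whole algorithm
-/

set_option autoImplicit false

namespace Pool.Agent.Helper878_bs

open Pool.Agent.NPC Pool.Agent.H671R2.SF Pool.Agent.Helper878_dcs Pool.Agent.Helper878_mm

/-- the algorithm for instances without a biclique of split pairs -/
def solveT (t : ℕ) (I : Inst) : Bool :=
  wfB I && tpB I.1 I.2.1 &&
    !bicB t t ((I.2.1, I.2.2), (freeV I.1 I.2.2, freeV I.1 I.2.2)) &&
    recB (rC t) (lC t) (dC t) ((I.2.1, I.2.2), ([], (freeV I.1 I.2.2, discs I.2.1 I.2.2)))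

/-- the algorithm for `2K_t`-free graphs -/
def solveK (t : ℕ) (I : Inst) : Bool :=
  solveT t I && !bicN t t (I.2.1, (I.1, I.1))

theorem poly_solveT (t : ℕ) : Poly (solveT t) := by
  have h1 := poly_bicB t t
  have h2 := poly_recB (rC t) (lC t) (dC t)
  unfold solveT wfB tpB nodupB
  generalize bicB t t = f at h1
  generalize recB (rC t) (lC t) (dC t) = g at h2
  fun_prop

theorem poly_solveK (t : ℕ) : Poly (solveK t) := by
  have h1 := poly_bicN t t
  have h2 := poly_solveT t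
  unfold solveK
  generalize bicN t t = f at h1
  generalize solveT t = g at h2
  fun_prop

theorem solveT_iff (t : ℕ) (I : Inst) : (WellFormed I ∧ Free threeP1 (graph I.1 I.2.1) ∧
    ¬ SplitBiclique t I ∧ DCS I) ↔ solveT t I = true := by
  unfold solveT
  rw [Bool.and_eq_true, Bool.and_eq_true, Bool.and_eq_true, wfB_iff, tpB_iff, free3_iff,
    Bool.not_eq_true', ← Bool.not_eq_true, bicB_eq, and_assoc, and_assoc]
  refine and_congr_right fun hw => and_congr_right fun hT => ?_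
  have hWn : (freeV I.1 I.2.2).Nodup := (lctx hw hT.kp).hWn
  have h1 : SplitBiclique t I ↔ bicG (spB I.2.1 I.2.2) t t (freeV I.1 I.2.2) (freeV I.1 I.2.2) =
      true := by
    rw [biclique_iff hw, bicG_kf _ t hWn]
    rfl
  rw [h1]
  refine and_congr_right fun hN => ?_
  have hk : KF (freeV I.1 I.2.2).toFinset (Spl I.2.1 I.2.2) t := by
    by_contra hn
    exact hN (h1.1 ((biclique_iff hw t).2 hn))
  rw [dcs_iff hw hT.kp]
  exact feas_rec (U := I.1.toFinset) ⟨lctx hw hT.kp, hT, fun Z hZ => (List.mem_filter.1 hZ).1⟩ hk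

theorem not_biclique {t : ℕ} {I : Inst} (hw : WellFormed I)
    (hT : TP (GG I.2.1) I.1.toFinset) (hF : Free (twoK t) (graph I.1 I.2.1)) :
    ¬ SplitBiclique t I := by
  rw [biclique_iff hw, not_not]
  rw [twoK_iff hT] at hF
  intro X Y hX hY hXc hYc
  have hs : (freeV I.1 I.2.2).toFinset ⊆ I.1.toFinset := fun x hx =>
    List.mem_toFinset.2 (mem_freeV.1 (List.mem_toFinset.1 hx)).1
  obtain ⟨x, hx, y, hy, hxy⟩ := hF X Y (hX.trans hs) (hY.trans hs) hXc hYc
  refine ⟨x, hx, y, hy, fun hsp => hxy ?_⟩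
  rw [spl_iff] at hsp
  obtain ⟨Z, hZ, z, hz, z', hz', h1, h2, h3, h4, h5, h6⟩ := hsp
  rw [Bool.and_eq_true, nadj_iff, Bool.not_eq_true', decide_eq_false_iff_not]
  refine ⟨fun he => ?_, h6⟩
  rw [he] at h1
  exact h4 h1

theorem solveK_iff (t : ℕ) (I : Inst) : (WellFormed I ∧ Free threeP1 (graph I.1 I.2.1) ∧
    Free (twoK t) (graph I.1 I.2.1) ∧ DCS I) ↔ solveK t I = true := by
  unfold solveK
  rw [Bool.and_eq_true, ← solveT_iff, Bool.not_eq_true', ← Bool.not_eq_true, bicN_eq]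
  have key : WellFormed I → TP (GG I.2.1) I.1.toFinset → (Free (twoK t) (graph I.1 I.2.1) ↔
      ¬ bicG (fun v y => !decide (v = y) && !adj I.2.1 v y) t t I.1 I.1 = true) := by
    intro hw hT
    rw [twoK_iff hT, bicG_kf _ t hw.1, not_not]
  constructor
  · rintro ⟨hw, h3, hF, hD⟩
    have hT := free3_iff.1 h3
    exact ⟨⟨hw, h3, not_biclique hw hT hF, hD⟩, (key hw hT).1 hF⟩
  · rintro ⟨⟨hw, h3, _, hD⟩, hF⟩
    exact ⟨hw, h3, (key hw (free3_iff.1 h3)).2 hF, hD⟩

theorem mainT (t : ℕ) : InPP (fun I : Inst => WellFormed I ∧ Free threeP1 (graph I.1 I.2.1) ∧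
    ¬ SplitBiclique t I ∧ DCS I) :=
  inPP_of (poly_solveT t) fun I => solveT_iff t I

theorem mainK (t : ℕ) : InPP (fun I : Inst => WellFormed I ∧ Free threeP1 (graph I.1 I.2.1) ∧
    Free (twoK t) (graph I.1 I.2.1) ∧ DCS I) :=
  inPP_of (poly_solveK t) fun I => solveK_iff t I

end Pool.Agent.Helper878_bs
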