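import Pool.Agent.Helper878_bs.Comp

/-!
# From connected supersets to good options
-/

set_option autoImplicit false
set_option linter.unusedSectionVars false

namespace Pool.Agent.Helper878_bs

open Finset Pool.Agent.H671R2.SF Pool.Agent.Helper878_dcs Pool.Agent.Helper878_mm

variable {E : List (ℕ × ℕ)} {Zs : List (List ℕ)} {U : Finset ℕ} {W : List ℕ} {J : List (List ℕ)}

/-- the setting -/
structure TC (E : List (ℕ × ℕ)) (Zs : List (List ℕ)) (U : Finset ℕ) (W : List ℕ)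
    (J : List (List ℕ)) : Prop where
  lc : LCtx E U W J
  tp : TP (GG E) U
  sub : ∀ Z ∈ J, Z ∈ Zs

theorem TC.toLC (h : TC E Zs U W J) : LC W J := LCtx.toLC h.lc

theorem spl_iff {a b : ℕ} : Spl E Zs a b ↔ ∃ Z ∈ Zs, ∃ z ∈ Z, ∃ z' ∈ Z, (GG E).Adj z a ∧
    (GG E).Adj z' b ∧ ¬ (GG E).Adj z z' ∧ ¬ (GG E).Adj z b ∧ ¬ (GG E).Adj a z' ∧
    ¬ (GG E).Adj a b := by
  unfold Spl spB
  simp only [List.any_eq_true, Bool.and_eq_true, adj_iff, nadj_iff]

theorem spl_symm {a b : ℕ} (h : Spl E Zs a b) : Spl E Zs b a := by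
  rw [spl_iff] at h ⊢
  obtain ⟨Z, hZ, z, hz, z', hz', h1, h2, h3, h4, h5, h6⟩ := h
  exact ⟨Z, hZ, z', hz', z, hz, h2, h1, fun e => h3 e.symm, fun e => h5 e.symm,
    fun e => h4 e.symm, fun e => h6 e.symm⟩

section
variable (h : TC E Zs U W J) {Z : List ℕ} (hZ : Z ∈ J)
include h hZ

theorem TC.nmm : nm Z ∈ Z.toFinset := List.mem_toFinset.2 (nm_mem (h.lc.hne Z hZ))

theorem TC.ne' : Z.toFinset.Nonempty := ⟨_, h.nmm hZ⟩

/-- three vertices in pairwise different classes do not exist -/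
theorem TC.two {x y z : ℕ} (hx : x ∈ Z.toFinset) (hy : y ∈ Z.toFinset) (hz : z ∈ Z.toFinset)
    (h1 : ¬ near (GG E) Z.toFinset x y) (h2 : ¬ near (GG E) Z.toFinset x z) :
    near (GG E) Z.toFinset y z := by
  by_contra h3
  have hU := h.lc.hJU Z hZ
  rcases h.tp x (hU hx) y (hU hy) z (hU hz) (fun he => h1 (he ▸ near_refl _ _))
    (fun he => h2 (he ▸ near_refl _ _)) (fun he => h3 (he ▸ near_refl _ _)) with h4 | h4 | h4
  · exact h1 (near_of_adj h4)
  · exact h2 (near_of_adj h4)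
  · exact h3 (near_of_adj h4)

theorem TC.nthree : ¬ three (GG E) Z.toFinset := by
  rintro ⟨x, hx, y, hy, z, hz, h1, h2, h3⟩
  exact h3 (h.two hZ hx hy hz h1 h2)

/-- a nonterminal is adjacent to one of two vertices in different classes -/
theorem TC.adj_or {x y w : ℕ} (hx : x ∈ Z.toFinset) (hy : y ∈ Z.toFinset) (hw : w ∈ W)
    (h1 : ¬ near (GG E) Z.toFinset x y) : (GG E).Adj w x ∨ (GG E).Adj w y := by
  have hU := h.lc.hJU Z hZ
  have hwU : w ∈ U := h.lc.hWU (List.mem_toFinset.2 hw)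
  have hd := Finset.disjoint_left.1 (h.lc.hJW Z hZ)
  rcases h.tp w hwU x (hU hx) y (hU hy) (fun he => hd hx (he ▸ List.mem_toFinset.2 hw))
    (fun he => hd hy (he ▸ List.mem_toFinset.2 hw)) (fun he => h1 (he ▸ near_refl _ _)) with
    h4 | h4 | h4
  · exact Or.inl h4
  · exact Or.inr h4
  · exact absurd (near_of_adj h4) h1

theorem t1_iff {w : ℕ} : s1B E Z w = true ↔ ¬ miss (GG E) Z.toFinset w (nm Z) := nmiss_iff

theorem t2_iff {w : ℕ} : s2B E Z w = true ↔ ∃ z ∈ Z.toFinset, ¬ near (GG E) Z.toFinset (nm Z) z ∧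
    ¬ miss (GG E) Z.toFinset w z := by
  unfold s2B
  simp only [List.any_eq_true, Bool.and_eq_true, nnear_iff, nmiss_iff, List.mem_toFinset]

theorem TC.zero {c : ℕ} (hc : zB E Z c = true) : Con (GG E) (Z.toFinset ∪ {c}) := by
  have hK := h.lc.hK
  have hU := h.lc.hJU Z hZ
  have hne := h.ne' hZ
  have hd := h.lc.hdc Z hZ
  have h0 := h.nmm hZ
  unfold zB at hc
  rw [Bool.and_eq_true, t1_iff h hZ, t2_iff h hZ] at hc
  obtain ⟨h1, z', hz', h2, h3⟩ := hc
  refine con_single hne fun z hz hm => ?_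
  by_cases hn : near (GG E) Z.toFinset (nm Z) z
  · exact h1 (miss_congr hK hU hne hd hz h0 (near_symm hn) hm)
  · exact h3 (miss_congr hK hU hne hd hz hz' (h.two hZ h0 hz hz' hn h2) hm)

/-- what the two vertices of a pair see -/
theorem TC.sides {a b : ℕ} (ha : a ∈ W) (hb : b ∈ W) (h1 : sg3 E Z a = 1)
    (h2 : sg3 E Z b = 2) : ∃ z ∈ Z.toFinset, ¬ near (GG E) Z.toFinset (nm Z) z ∧
      ¬ miss (GG E) Z.toFinset a (nm Z) ∧ miss (GG E) Z.toFinset b (nm Z) ∧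
      (GG E).Adj a (nm Z) ∧ (GG E).Adj b z ∧ ¬ (GG E).Adj a z ∧ ¬ (GG E).Adj b (nm Z) := by
  have hne := h.ne' hZ
  have hd := h.lc.hdc Z hZ
  have h0 := h.nmm hZ
  rw [sg3_one] at h1
  rw [sg3_two] at h2
  obtain ⟨ha1, ha2⟩ := h1
  obtain ⟨-, hb2⟩ := h2
  rw [t1_iff h hZ] at ha2
  have hbm : miss (GG E) Z.toFinset b (nm Z) := by
    by_contra hn
    have := (t1_iff h hZ).2 hn
    rw [hb2] at this
    exact absurd this (by decide)
  have ham : ∀ z ∈ Z.toFinset, ¬ near (GG E) Z.toFinset (nm Z) z →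
      miss (GG E) Z.toFinset a z := by
    intro z hz hn
    by_contra hm
    have e1 : s2B E Z a = true := (t2_iff h hZ).2 ⟨z, hz, hn, hm⟩
    have e2 : s1B E Z a = true := (t1_iff h hZ).2 ha2
    unfold zB at ha1
    rw [e1, e2] at ha1
    exact absurd ha1 (by decide)
  obtain ⟨z1, hz1, hn1⟩ := exists_not_near hne hd _ h0
  have e1 := miss_self hz1 (ham z1 hz1 hn1)
  have e2 := miss_self h0 hbm
  exact ⟨z1, hz1, hn1, ha2, hbm, (h.adj_or hZ h0 hz1 ha hn1).resolve_right e1,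
    (h.adj_or hZ h0 hz1 hb hn1).resolve_left e2, e1, e2⟩

theorem TC.pair {a b : ℕ} (ha : a ∈ W) (hb : b ∈ W) (h1 : sg3 E Z a = 1)
    (h2 : sg3 E Z b = 2) (hab : (GG E).Adj a b) : Con (GG E) (Z.toFinset ∪ {a, b}) := by
  have hK := h.lc.hK
  have hU := h.lc.hJU Z hZ
  have hne := h.ne' hZ
  have hd := h.lc.hdc Z hZ
  have h0 := h.nmm hZ
  obtain ⟨z1, hz1, hn1, ha2, hbm, e3, e4, e1, e2⟩ := h.sides hZ ha hb h1 h2
  refine con_pair hne ?_ (Or.inl hab)
  intro z hz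
  by_cases hn : near (GG E) Z.toFinset (nm Z) z
  · exact Or.inl fun hm => ha2 (miss_congr hK hU hne hd hz h0 (near_symm hn) hm)
  · right
    intro hm
    rcases h.adj_or hZ h0 hz hb hn with h5 | h5
    · exact e2 h5
    · exact miss_self hz hm h5

theorem TC.good_con {s : Finset ℕ} (hs : Gd E W J ⟨Z, hZ⟩ s) :
    s ⊆ W.toFinset ∧ Con (GG E) (Z.toFinset ∪ s) := by
  rcases hs with ⟨c, hc, h1, rfl⟩ | ⟨a, ha, b, hb, h1, h2, h3, rfl⟩
  · exact ⟨Finset.singleton_subset_iff.2 hc, h.zero hZ (sg3_zero.1 h1)⟩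
  · exact ⟨Finset.insert_subset ha (Finset.singleton_subset_iff.2 hb),
      h.pair hZ (List.mem_toFinset.1 ha) (List.mem_toFinset.1 hb) h1 h2 h3⟩

theorem TC.con_good {o : Finset ℕ} (ho : o ⊆ W.toFinset) (hc : Con (GG E) (Z.toFinset ∪ o)) :
    ∃ s ⊆ o, Gd E W J ⟨Z, hZ⟩ s := by
  have hK := h.lc.hK
  have hU := h.lc.hJU Z hZ
  have hne := h.ne' hZ
  have hd := h.lc.hdc Z hZ
  have h0 := h.nmm hZ
  by_cases hz : ∃ c ∈ o, zB E Z c = true
  · obtain ⟨c, hco, hz⟩ := hz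
    exact ⟨{c}, Finset.singleton_subset_iff.2 hco, Or.inl ⟨c, ho hco, sg3_zero.2 hz, rfl⟩⟩
  · push Not at hz
    obtain ⟨z1, hz1, hn1⟩ := exists_not_near hne hd _ h0
    have hin : ∀ b ∈ (Z.toFinset ∪ o) \ Z.toFinset, b ∈ o := by
      intro b hb
      rw [Finset.mem_sdiff, Finset.mem_union] at hb
      exact hb.1.resolve_left hb.2
    have hzf : ∀ b ∈ o, zB E Z b = false := fun b hb => Bool.eq_false_iff.2 (hz b hb)
    obtain ⟨b, hb, a, ha, h1, h2, h3⟩ := exists_edge hK hU hne hd Finset.subset_union_left hc h0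
      (h.nthree hZ) (by
        intro b hb hm
        refine ⟨z1, hz1, ?_⟩
        by_contra hn
        have e1 : s1B E Z b = true := (t1_iff h hZ).2 hm
        have e2 : s2B E Z b = true := (t2_iff h hZ).2 ⟨z1, hz1, hn1, hn⟩
        have e3 := hzf b (hin b hb)
        unfold zB at e3
        rw [e1, e2] at e3
        exact absurd e3 (by decide))
    have hbo := hin b hb
    have hao := hin a ha
    refine ⟨{b, a}, Finset.insert_subset hbo (Finset.singleton_subset_iff.2 hao),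
      Or.inr ⟨b, ho hbo, a, ho hao, sg3_one.2 ⟨hzf b hbo, (t1_iff h hZ).2 h1⟩,
        sg3_two.2 ⟨hzf a hao, ?_⟩, h3.symm, rfl⟩⟩
    by_contra hn
    rw [Bool.not_eq_false] at hn
    exact (t1_iff h hZ).1 hn h2

end

theorem TC.ctx (h : TC E Zs U W J) :
    Ctx W.toFinset (sgJ E J) (GG E).Adj (Spl E Zs) where
  sym := fun _ _ => spl_symm
  adj := by
    intro i a ha b hb h1 h2 hn
    by_contra hab
    obtain ⟨z1, hz1, hn1, -, -, e3, e4, e1, e2⟩ := h.sides i.2 (List.mem_toFinset.1 ha)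
      (List.mem_toFinset.1 hb) h1 h2
    refine hn (spl_iff.2 ⟨i.1, h.sub _ i.2, nm i.1, List.mem_toFinset.1 (h.nmm i.2), z1,
      List.mem_toFinset.1 hz1, e3.symm, e4.symm, fun e => hn1 (near_of_adj e), fun e => e2 e.symm,
      e1, hab⟩)

theorem feas_good (h : TC E Zs U W J) : Feas (GG E) W.toFinset (Zf J) ↔
    ∃ g : {Z // Z ∈ J} → Finset ℕ, (∀ i, Gd E W J i (g i)) ∧
      ∀ i j, i ≠ j → Disjoint (g i) (g j) := by
  constructor
  · rintro ⟨o, ho, hd⟩
    have hex : ∀ i : {Z // Z ∈ J}, ∃ s ⊆ o i, Gd E W J i s := fun i =>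
      h.con_good i.2 (ho i).1 (ho i).2
    choose s hs1 hs2 using hex
    exact ⟨s, hs2, fun i j hij => Finset.disjoint_of_subset_left (hs1 i)
      (Finset.disjoint_of_subset_right (hs1 j) (hd i j hij))⟩
  · rintro ⟨o, ho, hd⟩
    exact ⟨o, fun i => h.good_con i.2 (ho i), hd⟩

/-- The search decides feasibility. -/
theorem feas_rec (h : TC E Zs U W J) {t : ℕ} (ht : KF W.toFinset (Spl E Zs) t) :
    Feas (GG E) W.toFinset (Zf J) ↔
      recB (rC t) (lC t) (dC t) ((E, Zs), ([], (W, J))) = true := by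
  rw [feas_good h, rec_iff h.toLC h.ctx ht]

end Pool.Agent.Helper878_bs
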